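import Pool.Agent.Lib.MP_f82811_pr.WC.Moments

/-!
# Weak couplings: the higher Walsh coefficients of the eigenfunction
-/

set_option autoImplicit false

namespace Pool.Agent.Lib.MP_f82811_pr.WC

open Finset HT symmDiff

variable {V : Type*} [Fintype V] [DecidableEq V]

omit [Fintype V] in
theorem erase_eq_symmDiff {v : V} {B : Finset V} (h : v ∈ B) : B.erase v = B ∆ {v} := by
  ext u
  by_cases hu : u = v
  · subst hu; simp [Finset.mem_symmDiff, h]
  · simp [Finset.mem_symmDiff, hu]

theorem sum_filter_mem (v : V) (g : Finset V → Finset V → ℝ) :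
    ∑ T : Finset V, (if v ∈ T then 0 else g (insert v T) T) =
      ∑ B ∈ univ.filter (fun B : Finset V => v ∈ B), g B (B.erase v) := by
  have h1 : ∑ T : Finset V, (if v ∈ T then 0 else g (insert v T) T) =
      ∑ T ∈ univ.filter (fun T : Finset V => v ∉ T), g (insert v T) T := by
    rw [Finset.sum_filter]
    refine Finset.sum_congr rfl fun T _ => ?_
    by_cases h : v ∈ T <;> simp [h]
  rw [h1]
  refine Finset.sum_nbij' (fun T => insert v T) (fun B => B.erase v) ?_ ?_ ?_ ?_ ?_
  · intro T _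
    simp
  · intro B _
    simp
  · intro T hT
    exact Finset.erase_insert (Finset.mem_filter.1 hT).2
  · intro B hB
    exact Finset.insert_erase (Finset.mem_filter.1 hB).2
  · intro T hT
    rw [Finset.erase_insert (Finset.mem_filter.1 hT).2]

theorem hat_eq {A : V → V → ℝ} {f : (V → Bool) → ℝ} {lam : ℝ} (h : Eig A f lam)
    (B : Finset V) :
    ((B.card : ℝ) - lam) * hat f B =
      ∑ v, ∑ B' ∈ univ.filter (fun B' : Finset V => v ∈ B'),
        hat f B' * hat (tau A v) (B ∆ (B'.erase v)) := by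
  have h1 : (fun σ => lam * f σ) = fun σ => ∑ v, (sp v σ * D v f σ - D v f σ * tau A v σ) := by
    funext σ
    rw [← h σ]
    exact Finset.sum_congr rfl fun v _ => by ring
  have h2 : lam * hat f B = ∑ v, (hat (fun σ => sp v σ * D v f σ) B -
      hat (fun σ => D v f σ * tau A v σ) B) := by
    rw [← hat_smul, h1, hat_sum]
    exact Finset.sum_congr rfl fun v _ => hat_sub _ _ _
  have h3 : ∀ v, hat (fun σ => D v f σ * tau A v σ) B =
      ∑ B' ∈ univ.filter (fun B' : Finset V => v ∈ B'),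
        hat f B' * hat (tau A v) (B ∆ (B'.erase v)) := by
    intro v
    rw [hat_mul, ← sum_filter_mem v (fun B' T => hat f B' * hat (tau A v) (B ∆ T))]
    refine Finset.sum_congr rfl fun T _ => ?_
    rw [hat_D]
    split_ifs <;> simp
  rw [Finset.sum_sub_distrib, Finset.sum_congr rfl fun v _ => h3 v] at h2
  have h4 : ∑ v, hat (fun σ => sp v σ * D v f σ) B = (B.card : ℝ) * hat f B := by
    rw [Finset.sum_congr rfl fun v _ => hat_sp_D v f B, Finset.sum_ite_mem, Finset.univ_inter,
      Finset.sum_const, nsmul_eq_mul]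
  rw [h4] at h2
  linarith

theorem nrm_D_eq (w : V → ℝ) (i : V) (g : (V → Bool) → ℝ) :
    nrm w (D i g) = ∑ S ∈ univ.filter (fun S : Finset V => i ∈ S),
      |hat g S| * ∏ u ∈ S.erase i, w u := by
  unfold nrm
  rw [← sum_filter_mem i (fun B T => |hat g B| * ∏ u ∈ T, w u)]
  refine Finset.sum_congr rfl fun T _ => ?_
  rw [hat_D]
  split_ifs <;> simp

theorem nrm_D_sub_const (w : V → ℝ) (hw : ∀ u, 0 ≤ w u) (i : V) (g : (V → Bool) → ℝ) (t : ℝ) :
    ∑ S ∈ univ.filter (fun S : Finset V => i ∈ S ∧ 3 ≤ S.card),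
      |hat g S| * ∏ u ∈ S.erase i, w u ≤ nrm w (fun σ => D i g σ - t) := by
  have h0 : ∀ T : Finset V, 0 ≤ |hat (fun σ => D i g σ - t) T| * ∏ u ∈ T, w u := fun T =>
    mul_nonneg (abs_nonneg _) (Finset.prod_nonneg fun u _ => hw u)
  have h1 : ∀ S ∈ univ.filter (fun S : Finset V => i ∈ S ∧ 3 ≤ S.card),
      |hat g S| * ∏ u ∈ S.erase i, w u =
      |hat (fun σ => D i g σ - t) (S.erase i)| * ∏ u ∈ S.erase i, w u := by
    intro S hS
    rw [Finset.mem_filter] at hS
    have hne : S.erase i ≠ ∅ := by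
      intro h0
      have := Finset.card_erase_of_mem hS.2.1
      rw [h0, Finset.card_empty] at this
      omega
    rw [hat_sub, hat_const, if_neg hne, sub_zero, hat_D, if_neg (Finset.notMem_erase i S),
      Finset.insert_erase hS.2.1]
  rw [Finset.sum_congr rfl h1]
  have hsub : univ.filter (fun S : Finset V => i ∈ S ∧ 3 ≤ S.card) ⊆
      univ.filter (fun S : Finset V => i ∈ S) := by
    intro S hS
    rw [Finset.mem_filter] at hS ⊢
    exact ⟨hS.1, hS.2.1⟩
  have h2 := Finset.sum_le_sum_of_subset_of_nonneg (f := fun S : Finset V =>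
    |hat (fun σ => D i g σ - t) (S.erase i)| * ∏ u ∈ S.erase i, w u) hsub
    (fun S _ _ => h0 _)
  refine h2.trans ?_
  have h3 := sum_filter_mem i (fun _ T => |hat (fun σ => D i g σ - t) T| * ∏ u ∈ T, w u)
  rw [← h3]
  unfold nrm
  refine Finset.sum_le_sum fun T _ => ?_
  split_ifs
  · exact h0 T
  · exact le_rfl

/-- The weighted sum of the higher coefficients at `i`. -/
noncomputable def FC (N : Finset V → ℝ) (f : (V → Bool) → ℝ) (j i : V) : ℝ :=
  ∑ B ∈ univ.filter (fun B : Finset V => i ∈ B ∧ 3 ≤ B.card), |hat f B| * N ({j} ∆ (B.erase i))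

/-- The weight. -/
noncomputable def Wt (N : Finset V → ℝ) (j i : V) (S : Finset V) : ℝ :=
  if i ∈ S ∧ 3 ≤ S.card then N ({j} ∆ (S.erase i)) else 0

section

variable {A : V → V → ℝ} {x : V → ℝ} {N : Finset V → ℝ} {φ k3 : ℝ}

omit [Fintype V] in
theorem Wt_nonneg (hN : ∀ B, 0 < N B) (j i : V) (S : Finset V) : 0 ≤ Wt N j i S := by
  unfold Wt
  split_ifs
  · exact (hN _).le
  · exact le_rfl

omit [Fintype V] in
theorem Wt_le (hN : ∀ B, 0 < N B) (j i : V) (S : Finset V) : Wt N j i S ≤ N ({j} ∆ (S.erase i)) := by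
  unfold Wt
  split_ifs
  · exact le_rfl
  · exact (hN _).le

omit [Fintype V] in
theorem Wt_of_notMem (j : V) {i : V} {S : Finset V} (h : i ∉ S) : Wt N j i S = 0 := by
  unfold Wt
  rw [if_neg (fun h' => h h'.1)]

/-- The vertex `i` stays. -/
theorem inner_same (hx : ∀ v, 0 < x v) (hN : Level x N)
    (hφ : ∀ v, nrm (ratio x v) (tau A v) ≤ φ) (j : V) {i v : V} {B : Finset V} (hi : i ∈ B)
    (hv : v ∈ B) :
    ∑ S, |hat (tau A v) S| * Wt N j i (S ∆ (B.erase v)) ≤ φ * N ({j} ∆ (B.erase i)) := by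
  have h1 : ∀ S, |hat (tau A v) S| * Wt N j i (S ∆ (B.erase v)) ≤
      (|hat (tau A v) S| * ∏ u ∈ S, ratio x v u) * N ({j} ∆ (B.erase i)) := by
    intro S
    by_cases hS : Odd S.card
    · rw [mul_assoc]
      refine mul_le_mul_of_nonneg_left ?_ (abs_nonneg _)
      by_cases hmem : i ∈ S ∆ (B.erase v)
      · refine (Wt_le hN.pos j i _).trans ?_
        have h2 := hN.odd hx v ({j} ∆ (B.erase i)) S hS
        have h3 : {j} ∆ ((S ∆ (B.erase v)).erase i) = {j} ∆ (B.erase i) ∆ {v} ∆ S := by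
          rw [erase_eq_symmDiff hmem, erase_eq_symmDiff hi, erase_eq_symmDiff hv]
          ac_rfl
        rw [h3]
        exact h2
      · rw [Wt_of_notMem j hmem]
        exact mul_nonneg (Finset.prod_nonneg fun u _ => (ratio_pos hx v u).le) (hN.pos _).le
    · rw [Nat.not_odd_iff_even] at hS
      rw [hat_odd (tau_neg A v) hS]
      simp
  refine (Finset.sum_le_sum fun S _ => h1 S).trans ?_
  rw [← Finset.sum_mul]
  exact mul_le_mul_of_nonneg_right (hφ v) (hN.pos _).le

/-- The vertex `i` is created. -/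
theorem term_new (hx : ∀ v, 0 < x v) (hN : Level x N) (j : V) {i v : V} {B : Finset V}
    (hi : i ∉ B) {S : Finset V} (hS : Odd S.card) (hiS : i ∈ S) :
    Wt N j i (S ∆ (B.erase v)) ≤ (∏ u ∈ S.erase i, ratio x v u) * N ({j} ∆ (B.erase v)) := by
  have hmem : i ∈ S ∆ (B.erase v) := by
    rw [Finset.mem_symmDiff]
    exact Or.inl ⟨hiS, fun h => hi (Finset.mem_of_mem_erase h)⟩
  refine (Wt_le hN.pos j i _).trans ?_
  have hev : Even (S.erase i).card := by
    rw [Finset.card_erase_of_mem hiS]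
    obtain ⟨n, hn⟩ := hS
    exact ⟨n, by omega⟩
  have h2 := hN.even hx v ({j} ∆ (B.erase v)) (S.erase i) hev
  have h3 : {j} ∆ ((S ∆ (B.erase v)).erase i) = {j} ∆ (B.erase v) ∆ (S.erase i) := by
    rw [erase_eq_symmDiff hmem, erase_eq_symmDiff hiS]
    ac_rfl
  rw [h3]
  exact h2

theorem inner_new (hA : Coup A) (hx : ∀ v, 0 < x v) (hN : Level x N)
    (hd : ∀ v i, nrm (ratio x v) (fun σ => D i (tau A v) σ - Real.tanh (A v i)) ≤ A v i * k3)
    (j : V) {i v : V} {B : Finset V} (hi : i ∉ B) :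
    ∑ S, |hat (tau A v) S| * Wt N j i (S ∆ (B.erase v)) ≤
      A v i * (1 + k3) * N ({j} ∆ (B.erase v)) := by
  have h0 : ∀ u, 0 ≤ ratio x v u := fun u => (ratio_pos hx v u).le
  have h1 : ∀ S, |hat (tau A v) S| * Wt N j i (S ∆ (B.erase v)) ≤
      if i ∈ S then (|hat (tau A v) S| * ∏ u ∈ S.erase i, ratio x v u) * N ({j} ∆ (B.erase v))
        else 0 := by
    intro S
    split_ifs with hiS
    · by_cases hS : Odd S.card
      · rw [mul_assoc]
        exact mul_le_mul_of_nonneg_left (term_new hx hN j hi hS hiS) (abs_nonneg _)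
      · rw [Nat.not_odd_iff_even] at hS
        rw [hat_odd (tau_neg A v) hS]
        simp
    · rw [Wt_of_notMem j (i := i), mul_zero]
      rw [Finset.mem_symmDiff]
      rintro (h | h)
      · exact hiS h.1
      · exact hi (Finset.mem_of_mem_erase h.1)
  refine (Finset.sum_le_sum fun S _ => h1 S).trans ?_
  rw [← Finset.sum_filter, ← Finset.sum_mul, ← nrm_D_eq]
  refine mul_le_mul_of_nonneg_right ?_ (hN.pos _).le
  have h2 := nrm_add h0 (fun σ => D i (tau A v) σ - Real.tanh (A v i))
    (fun _ => Real.tanh (A v i))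
  rw [nrm_const] at h2
  have h3 : (fun σ => D i (tau A v) σ - Real.tanh (A v i) + Real.tanh (A v i)) =
      D i (tau A v) := by
    funext σ
    ring
  rw [h3] at h2
  have h4 : |Real.tanh (A v i)| ≤ A v i := by
    have := abs_tanh_le (A v i)
    rwa [abs_of_nonneg (hA.nonneg v i)] at this
  have h5 := hd v i
  linarith

theorem inner_single (hx : ∀ v, 0 < x v) (hN : Level x N)
    (hd : ∀ v i, nrm (ratio x v) (fun σ => D i (tau A v) σ - Real.tanh (A v i)) ≤ A v i * k3)
    (j : V) {i v : V} (hi : i ≠ v) :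
    ∑ S, |hat (tau A v) S| * Wt N j i (S ∆ (({v} : Finset V).erase v)) ≤
      A v i * k3 * x j := by
  have h0 : ∀ u, 0 ≤ ratio x v u := fun u => (ratio_pos hx v u).le
  have hi' : i ∉ ({v} : Finset V) := by simpa using hi
  have hem : ({v} : Finset V).erase v = ∅ := by simp
  have h1 : ∀ S, |hat (tau A v) S| * Wt N j i (S ∆ (({v} : Finset V).erase v)) ≤
      if i ∈ S ∧ 3 ≤ S.card then (|hat (tau A v) S| * ∏ u ∈ S.erase i, ratio x v u) * x j
        else 0 := by
    intro S
    split_ifs with hiS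
    · by_cases hS : Odd S.card
      · rw [mul_assoc]
        refine mul_le_mul_of_nonneg_left ?_ (abs_nonneg _)
        have h2 := term_new hx hN j hi' hS hiS.1 (v := v)
        have h3 : {j} ∆ (({v} : Finset V).erase v) = {j} := by
          rw [hem, ← Finset.bot_eq_empty, symmDiff_bot]
        rw [h3, hN.single] at h2
        exact h2
      · rw [Nat.not_odd_iff_even] at hS
        rw [hat_odd (tau_neg A v) hS]
        simp
    · rw [hem, ← Finset.bot_eq_empty, symmDiff_bot]
      unfold Wt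
      rw [if_neg hiS, mul_zero]
  refine (Finset.sum_le_sum fun S _ => h1 S).trans ?_
  rw [← Finset.sum_filter, ← Finset.sum_mul]
  refine mul_le_mul_of_nonneg_right ?_ (hx j).le
  exact (nrm_D_sub_const _ h0 i _ _).trans (hd v i)

theorem inner_self (hA : Coup A) (j : V) {i : V} (B : Finset V) :
    ∑ S, |hat (tau A i) S| * Wt N j i (S ∆ (B.erase i)) = 0 := by
  refine Finset.sum_eq_zero fun S _ => ?_
  by_cases hiS : i ∈ S
  · have hD : ∀ σ, D i (tau A i) σ = 0 := by
      intro σ
      unfold D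
      rw [tau_update_self hA, tau_update_self hA]
      ring
    rw [hat_of_D hD hiS, abs_zero, zero_mul]
  · rw [Wt_of_notMem j, mul_zero]
    rw [Finset.mem_symmDiff]
    rintro (h | h)
    · exact hiS h.1
    · exact Finset.notMem_erase i B h.1

/-- The inner sums. -/
theorem inner_le {f : (V → Bool) → ℝ} (hA : Coup A) (hodd : ∀ σ, f (neg σ) = -f σ)
    (hx : ∀ v, 0 < x v) (hN : Level x N)
    (hφ : ∀ v, nrm (ratio x v) (tau A v) ≤ φ)
    (hd : ∀ v i, nrm (ratio x v) (fun σ => D i (tau A v) σ - Real.tanh (A v i)) ≤ A v i * k3)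
    (hk3 : 0 ≤ k3) (hφ0 : 0 ≤ φ) (j i v : V) {B : Finset V} (hv : v ∈ B) :
    |hat f B| * ∑ S, |hat (tau A v) S| * Wt N j i (S ∆ (B.erase v)) ≤
      |hat f B| * ((if i ∈ B ∧ i ≠ v then φ * N ({j} ∆ (B.erase i)) else 0) +
        (if 3 ≤ B.card then A v i * (1 + k3) * N ({j} ∆ (B.erase v)) else 0) +
        (if B = {v} then A v i * k3 * x j else 0)) := by
  have hAv := hA.nonneg v i
  have p1 : 0 ≤ (if i ∈ B ∧ i ≠ v then φ * N ({j} ∆ (B.erase i)) else 0) := by
    split_ifs
    · exact mul_nonneg hφ0 (hN.pos _).le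
    · exact le_rfl
  have p2 : 0 ≤ (if 3 ≤ B.card then A v i * (1 + k3) * N ({j} ∆ (B.erase v)) else 0) := by
    split_ifs
    · exact mul_nonneg (mul_nonneg hAv (by linarith)) (hN.pos _).le
    · exact le_rfl
  have p3 : 0 ≤ (if B = {v} then A v i * k3 * x j else 0) := by
    split_ifs
    · exact mul_nonneg (mul_nonneg hAv hk3) (hx j).le
    · exact le_rfl
  by_cases hB : Odd B.card
  · refine mul_le_mul_of_nonneg_left ?_ (abs_nonneg _)
    by_cases hi : i ∈ B
    · by_cases hiv : i = v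
      · subst hiv
        rw [inner_self hA]
        linarith
      · have h1 := inner_same (A := A) hx hN hφ j hi hv
        rw [if_pos ⟨hi, hiv⟩] at p1 ⊢
        linarith
    · by_cases h3 : 3 ≤ B.card
      · have h1 := inner_new hA hx hN hd j hi (v := v)
        rw [if_pos h3] at p2 ⊢
        linarith
      · have hc : B.card = 1 := by
          obtain ⟨n, hn⟩ := hB
          omega
        obtain ⟨k, hk⟩ := Finset.card_eq_one.1 hc
        have hkv : B = {v} := by
          rw [hk] at hv ⊢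
          rw [Finset.mem_singleton.1 hv]
        have hiv : i ≠ v := fun h => hi (by rw [h]; exact hv)
        have h1 := inner_single (A := A) hx hN hd j hiv
        rw [if_pos hkv] at p3 ⊢
        rw [hkv] at p1 p2 ⊢
        linarith
  · rw [Nat.not_odd_iff_even] at hB
    rw [hat_odd hodd hB, abs_zero, zero_mul, zero_mul]

theorem Wt_eq_mul (i j : V) (g : Finset V → ℝ) :
    ∑ B, g B * Wt N j i B = ∑ B ∈ univ.filter (fun B : Finset V => i ∈ B ∧ 3 ≤ B.card),
      g B * N ({j} ∆ (B.erase i)) := by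
  rw [Finset.sum_filter]
  refine Finset.sum_congr rfl fun B _ => ?_
  unfold Wt
  split_ifs <;> simp

theorem FC_nonneg (hN : ∀ B, 0 < N B) (f : (V → Bool) → ℝ) (j i : V) : 0 ≤ FC N f j i :=
  Finset.sum_nonneg fun _ _ => mul_nonneg (abs_nonneg _) (hN _).le

/-- The linear inequality for the weighted sums. -/
theorem FC_le {f : (V → Bool) → ℝ} {lam : ℝ} (hA : Coup A) (h : Eig A f lam)
    (hodd : ∀ σ, f (neg σ) = -f σ)
    (hlam : lam ≤ 1) (hx : ∀ v, 0 < x v) (hN : Level x N)
    (hφ : ∀ v, nrm (ratio x v) (tau A v) ≤ φ) (hφ0 : 0 ≤ φ) (hφ1 : φ ≤ 1)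
    (hd : ∀ v i, nrm (ratio x v) (fun σ => D i (tau A v) σ - Real.tanh (A v i)) ≤ A v i * k3)
    (hk3 : 0 ≤ k3) (j i : V) :
    (2 - 2 * φ) * FC N f j i ≤
      (1 + k3) * ∑ v, A v i * FC N f j v + k3 * x j * ∑ v, A v i * |hat f {v}| := by
  -- the equation, with absolute values
  have h1 : ∀ B : Finset V, ((B.card : ℝ) - lam) * |hat f B| ≤
      ∑ v, ∑ B' ∈ univ.filter (fun B' : Finset V => v ∈ B'),
        |hat f B'| * |hat (tau A v) (B ∆ (B'.erase v))| := by
    intro B
    have e1 : ((B.card : ℝ) - lam) * |hat f B| ≤ |((B.card : ℝ) - lam) * hat f B| := by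
      rw [abs_mul]
      exact mul_le_mul_of_nonneg_right (le_abs_self _) (abs_nonneg _)
    refine e1.trans ?_
    rw [hat_eq h B]
    refine (Finset.abs_sum_le_sum_abs _ _).trans (Finset.sum_le_sum fun v _ => ?_)
    refine (Finset.abs_sum_le_sum_abs _ _).trans (le_of_eq ?_)
    exact Finset.sum_congr rfl fun B' _ => abs_mul _ _
  have h2 : ∑ B, (((B.card : ℝ) - lam) * |hat f B|) * Wt N j i B ≤
      ∑ v, ∑ B' ∈ univ.filter (fun B' : Finset V => v ∈ B'),
        |hat f B'| * ∑ S, |hat (tau A v) S| * Wt N j i (S ∆ (B'.erase v)) := by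
    calc ∑ B, (((B.card : ℝ) - lam) * |hat f B|) * Wt N j i B ≤
        ∑ B, (∑ v, ∑ B' ∈ univ.filter (fun B' : Finset V => v ∈ B'),
          |hat f B'| * |hat (tau A v) (B ∆ (B'.erase v))|) * Wt N j i B :=
          Finset.sum_le_sum fun B _ =>
            mul_le_mul_of_nonneg_right (h1 B) (Wt_nonneg hN.pos j i B)
      _ = ∑ v, ∑ B' ∈ univ.filter (fun B' : Finset V => v ∈ B'),
          ∑ B, |hat f B'| * (|hat (tau A v) (B ∆ (B'.erase v))| * Wt N j i B) := by
          simp only [Finset.sum_mul]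
          rw [Finset.sum_comm]
          refine Finset.sum_congr rfl fun v _ => ?_
          rw [Finset.sum_comm]
          refine Finset.sum_congr rfl fun B' _ => ?_
          exact Finset.sum_congr rfl fun B _ => by ring
      _ = _ := by
          refine Finset.sum_congr rfl fun v _ => Finset.sum_congr rfl fun B' _ => ?_
          rw [← Finset.mul_sum]
          congr 1
          exact Fintype.sum_bijective (fun B => B ∆ (B'.erase v))
            (Function.Involutive.bijective fun S => symmDiff_symmDiff_cancel_right _ S) _ _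
            (fun B => by rw [symmDiff_symmDiff_cancel_right])
  have h3 : ∑ v, ∑ B' ∈ univ.filter (fun B' : Finset V => v ∈ B'),
        |hat f B'| * ∑ S, |hat (tau A v) S| * Wt N j i (S ∆ (B'.erase v)) ≤
      ∑ v, ∑ B' ∈ univ.filter (fun B' : Finset V => v ∈ B'), |hat f B'| *
        ((if i ∈ B' ∧ i ≠ v then φ * N ({j} ∆ (B'.erase i)) else 0) +
        (if 3 ≤ B'.card then A v i * (1 + k3) * N ({j} ∆ (B'.erase v)) else 0) +
        (if B' = {v} then A v i * k3 * x j else 0)) :=
    Finset.sum_le_sum fun v _ => Finset.sum_le_sum fun B' hB' =>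
      inner_le hA hodd hx hN hφ hd hk3 hφ0 j i v (Finset.mem_filter.1 hB').2
  -- the three sums
  have s1 : ∑ v, ∑ B' ∈ univ.filter (fun B' : Finset V => v ∈ B'), |hat f B'| *
      (if i ∈ B' ∧ i ≠ v then φ * N ({j} ∆ (B'.erase i)) else 0) ≤
      ∑ B, (φ * ((B.card : ℝ) - 1) * |hat f B|) * Wt N j i B := by
    simp only [Finset.sum_filter]
    rw [Finset.sum_comm]
    refine Finset.sum_le_sum fun B _ => ?_
    by_cases hi : i ∈ B
    · have e1 : ∑ v, (if v ∈ B then |hat f B| *
          (if i ∈ B ∧ i ≠ v then φ * N ({j} ∆ (B.erase i)) else 0) else 0) =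
          ((B.card : ℝ) - 1) * (|hat f B| * (φ * N ({j} ∆ (B.erase i)))) := by
        have e2 : ∀ v, (if v ∈ B then |hat f B| *
          (if i ∈ B ∧ i ≠ v then φ * N ({j} ∆ (B.erase i)) else 0) else 0) =
          if v ∈ B.erase i then |hat f B| * (φ * N ({j} ∆ (B.erase i))) else 0 := by
          intro v
          by_cases hv : v ∈ B <;> by_cases hiv : i = v
          · simp [hv, hiv]
          · simp [hv, hiv, hi, Finset.mem_erase, Ne.symm hiv]
          · simp [hv]
          · simp [hv]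
        rw [Finset.sum_congr rfl fun v _ => e2 v, Finset.sum_ite_mem, Finset.univ_inter,
          Finset.sum_const, nsmul_eq_mul, Finset.card_erase_of_mem hi]
        have e3 : 1 ≤ B.card := Finset.card_pos.2 ⟨i, hi⟩
        rw [Nat.cast_sub e3, Nat.cast_one]
      rw [e1]
      by_cases h3 : 3 ≤ B.card
      · unfold Wt
        rw [if_pos ⟨hi, h3⟩]
        refine le_of_eq ?_
        ring
      · have e4 : ((B.card : ℝ) - 1) * |hat f B| = 0 := by
          have e3 : 1 ≤ B.card := Finset.card_pos.2 ⟨i, hi⟩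
          rcases Nat.lt_or_ge B.card 2 with h5 | h5
          · have : B.card = 1 := by omega
            rw [this]
            simp
          · have : B.card = 2 := by omega
            rw [hat_odd hodd (by rw [this]; exact even_two), abs_zero, mul_zero]
        have e5 : ((B.card : ℝ) - 1) * (|hat f B| * (φ * N ({j} ∆ (B.erase i)))) = 0 := by
          rw [← mul_assoc, e4, zero_mul]
        rw [e5]
        unfold Wt
        rw [if_neg (fun h' => h3 h'.2), mul_zero]
    · rw [Wt_of_notMem j hi, mul_zero]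
      refine le_of_eq (Finset.sum_eq_zero fun v _ => ?_)
      simp [hi]
  have s2 : ∑ v, ∑ B' ∈ univ.filter (fun B' : Finset V => v ∈ B'), |hat f B'| *
      (if 3 ≤ B'.card then A v i * (1 + k3) * N ({j} ∆ (B'.erase v)) else 0) =
      (1 + k3) * ∑ v, A v i * FC N f j v := by
    rw [Finset.mul_sum]
    refine Finset.sum_congr rfl fun v _ => ?_
    unfold FC
    rw [Finset.sum_filter, Finset.sum_filter, Finset.mul_sum, Finset.mul_sum]
    refine Finset.sum_congr rfl fun B _ => ?_
    by_cases hv : v ∈ B <;> by_cases h3 : 3 ≤ B.card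
    · simp only [hv, h3, if_true, and_self]
      ring
    · simp [hv, h3]
    · simp [hv]
    · simp [hv]
  have s3 : ∑ v, ∑ B' ∈ univ.filter (fun B' : Finset V => v ∈ B'), |hat f B'| *
      (if B' = {v} then A v i * k3 * x j else 0) =
      k3 * x j * ∑ v, A v i * |hat f {v}| := by
    rw [Finset.mul_sum]
    refine Finset.sum_congr rfl fun v _ => ?_
    rw [Finset.sum_eq_single {v}]
    · rw [if_pos rfl]
      ring
    · intro B _ hB
      rw [if_neg hB, mul_zero]
    · intro h'
      exact absurd (by simp) h'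
  have h4 : ∑ v, ∑ B' ∈ univ.filter (fun B' : Finset V => v ∈ B'), |hat f B'| *
        ((if i ∈ B' ∧ i ≠ v then φ * N ({j} ∆ (B'.erase i)) else 0) +
        (if 3 ≤ B'.card then A v i * (1 + k3) * N ({j} ∆ (B'.erase v)) else 0) +
        (if B' = {v} then A v i * k3 * x j else 0)) ≤
      ∑ B, (φ * ((B.card : ℝ) - 1) * |hat f B|) * Wt N j i B +
        (1 + k3) * ∑ v, A v i * FC N f j v + k3 * x j * ∑ v, A v i * |hat f {v}| := by
    simp only [mul_add, Finset.sum_add_distrib]
    rw [← s2, ← s3]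
    simp only [mul_add, add_mul] at s1 ⊢
    linarith
  have h5 := h2.trans (h3.trans h4)
  -- the left-hand side
  have h6 : (2 - 2 * φ) * FC N f j i ≤
      ∑ B, (((B.card : ℝ) - lam) * |hat f B|) * Wt N j i B -
        ∑ B, (φ * ((B.card : ℝ) - 1) * |hat f B|) * Wt N j i B := by
    rw [← Finset.sum_sub_distrib]
    have e1 : (2 - 2 * φ) * FC N f j i = ∑ B, ((2 - 2 * φ) * |hat f B|) * Wt N j i B := by
      rw [Wt_eq_mul]
      unfold FC
      rw [Finset.mul_sum]
      exact Finset.sum_congr rfl fun B _ => by ring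
    rw [e1]
    refine Finset.sum_le_sum fun B _ => ?_
    by_cases h3 : i ∈ B ∧ 3 ≤ B.card
    · have e2 : (3 : ℝ) ≤ B.card := by exact_mod_cast h3.2
      have e3 : 2 - 2 * φ ≤ ((B.card : ℝ) - lam) - φ * ((B.card : ℝ) - 1) := by nlinarith
      have e4 := mul_le_mul_of_nonneg_right e3
        (mul_nonneg (abs_nonneg (hat f B)) (Wt_nonneg hN.pos j i B))
      calc _ = (2 - 2 * φ) * (|hat f B| * Wt N j i B) := by ring
        _ ≤ _ := e4
        _ = _ := by ring
    · have e2 : Wt N j i B = 0 := by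
        unfold Wt
        rw [if_neg h3]
      rw [e2]
      simp
  linarith

theorem coef_bound {f : (V → Bool) → ℝ} {lam r1 m M2 : ℝ} {y : V → ℝ} (hA : Coup A)
    (h : Eig A f lam) (hodd : ∀ σ, f (neg σ) = -f σ)
    (hlam : lam ≤ 1) (hx : ∀ v, 0 < x v) (hN : Level x N)
    (hφ : ∀ v, nrm (ratio x v) (tau A v) ≤ φ) (hφ0 : 0 ≤ φ) (hφ1 : φ ≤ 1)
    (hd : ∀ v i, nrm (ratio x v) (fun σ => D i (tau A v) σ - Real.tanh (A v i)) ≤ A v i * k3)
    (hk3 : 0 ≤ k3) (hy0 : ∀ v, 0 ≤ y v) (hy : ∀ i, ∑ v, A v i * y v ≤ r1 * y i)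
    (hrow : ∀ v, ∑ u, A v u ≤ r1)
    (hm0 : 0 ≤ m) (hm : ∀ v, |hat f {v}| ≤ (1 + 2 * m) * y v) (hM2 : 0 ≤ M2)
    (hden : (1 + k3) * r1 < 2 - 2 * φ)
    (hM : k3 * (1 + 2 * m) * r1 ≤ M2 * (2 - 2 * φ - (1 + k3) * r1)) (j i : V) :
    FC N f j i ≤ M2 * y i * x j := by
  obtain ⟨a, -, ha⟩ := Finset.exists_max_image Finset.univ
    (fun i => FC N f j i - M2 * y i * x j) ⟨i, Finset.mem_univ i⟩
  have ha0 : FC N f j a - M2 * y a * x j ≤ 0 := by
    by_contra hcon
    push Not at hcon
    set P := FC N f j a - M2 * y a * x j with hP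
    have h1 := FC_le hA h hodd hlam hx hN hφ hφ0 hφ1 hd hk3 j a
    have h2 : ∑ v, A v a * FC N f j v ≤ M2 * x j * (r1 * y a) + r1 * P := by
      calc ∑ v, A v a * FC N f j v ≤ ∑ v, (M2 * x j * (A v a * y v) + A v a * P) := by
            refine Finset.sum_le_sum fun v _ => ?_
            have e1 := ha v (Finset.mem_univ v)
            have e2 : FC N f j v ≤ M2 * y v * x j + P := by linarith
            have e3 := mul_le_mul_of_nonneg_left e2 (hA.nonneg v a)
            calc _ ≤ _ := e3
              _ = _ := by ring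
        _ = M2 * x j * ∑ v, A v a * y v + (∑ v, A v a) * P := by
            rw [Finset.sum_add_distrib, Finset.mul_sum, Finset.sum_mul]
        _ ≤ _ := by
            have e1 := mul_le_mul_of_nonneg_left (hy a) (mul_nonneg hM2 (hx j).le)
            have e2 : ∑ v, A v a ≤ r1 := by
              have : ∑ v, A v a = ∑ v, A a v := Finset.sum_congr rfl fun v _ => hA.symm v a
              rw [this]
              exact hrow a
            have e3 := mul_le_mul_of_nonneg_right e2 hcon.le
            linarith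
    have h3 : ∑ v, A v a * |hat f {v}| ≤ (1 + 2 * m) * (r1 * y a) := by
      calc ∑ v, A v a * |hat f {v}| ≤ ∑ v, (1 + 2 * m) * (A v a * y v) := by
            refine Finset.sum_le_sum fun v _ => ?_
            have e3 := mul_le_mul_of_nonneg_left (hm v) (hA.nonneg v a)
            calc _ ≤ _ := e3
              _ = _ := by ring
        _ = (1 + 2 * m) * ∑ v, A v a * y v := by rw [Finset.mul_sum]
        _ ≤ _ := mul_le_mul_of_nonneg_left (hy a) (by linarith)
    have h4 := mul_le_mul_of_nonneg_left h2 (show 0 ≤ 1 + k3 by linarith)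
    have h5 := mul_le_mul_of_nonneg_left h3 (mul_nonneg hk3 (hx j).le)
    have h6 : FC N f j a = P + M2 * y a * x j := by rw [hP]; ring
    rw [h6] at h1
    have h7 := mul_le_mul_of_nonneg_right hM (mul_nonneg (hy0 a) (hx j).le)
    have h8 : (2 - 2 * φ) * P ≤ (1 + k3) * r1 * P := by nlinarith
    have h9 := le_of_mul_le_mul_right h8 hcon
    linarith
  have h1 := ha i (Finset.mem_univ i)
  linarith

end

end Pool.Agent.Lib.MP_f82811_pr.WC
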