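import Pool.Agent.Lib.MP_f82811_pr.WC.Defs

/-!
# Weak couplings: the level function

`N B = x b₁ / x b₂ * x b₃ / ...` for `B = {b₁, b₂, ...}` with `x b₁ ≥ x b₂ ≥ ...`.
-/

set_option autoImplicit false

namespace Pool.Agent.Lib.MP_f82811_pr.WC

open Finset HT symmDiff

variable {V : Type*} [Fintype V] [DecidableEq V]

/-- the induction hypothesis of the construction -/
structure LevOn (x : V → ℝ) (s : Finset V) (N : Finset V → ℝ) : Prop where
  pos : ∀ B ⊆ s, 0 < N B
  empty : N ∅ = 1
  single : ∀ k ∈ s, N {k} = x k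
  step : ∀ B ⊆ s, ∀ u ∈ s, ∀ v ∈ s, N (B ∆ {u} ∆ {v}) ≤ ratio x u v * N B
  low : ∀ B ⊆ s, ∀ v ∈ s, x v ≤ N B * N (B ∆ {v})
  up : ∀ B ⊆ s, ∀ v ∈ s, ∀ m, (∀ u ∈ s, x u ≤ m) → x v * (N B * N (B ∆ {v})) ≤ m ^ 2

omit [Fintype V] [DecidableEq V] in
theorem ratio_comm (x : V → ℝ) (u v : V) : ratio x u v = ratio x v u := by
  unfold ratio
  rw [max_comm]

omit [Fintype V] [DecidableEq V] in
theorem ratio_pos {x : V → ℝ} (hx : ∀ v, 0 < x v) (u v : V) : 0 < ratio x u v :=
  lt_max_of_lt_left (div_pos (hx u) (hx v))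

omit [Fintype V] [DecidableEq V] in
theorem one_le_ratio {x : V → ℝ} (hx : ∀ v, 0 < x v) (u v : V) : 1 ≤ ratio x u v := by
  unfold ratio
  rcases le_total (x u) (x v) with h | h
  · exact le_max_of_le_right ((one_le_div (hx u)).2 h)
  · exact le_max_of_le_left ((one_le_div (hx v)).2 h)

omit [Fintype V] in
theorem sd_erase {B : Finset V} {a v : V} (hv : v ≠ a) :
    (B ∆ {v}).erase a = (B.erase a) ∆ {v} := by
  ext z
  simp only [mem_erase, mem_symmDiff, mem_singleton]
  constructor
  · rintro ⟨h1, h2 | h2⟩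
    · exact Or.inl ⟨⟨h1, h2.1⟩, h2.2⟩
    · exact Or.inr ⟨h2.1, fun h3 => h2.2 h3.2⟩
  · rintro (h2 | h2)
    · exact ⟨h2.1.1, Or.inl ⟨h2.1.2, h2.2⟩⟩
    · refine ⟨fun h3 => hv (h2.1.symm.trans h3), Or.inr ⟨h2.1, fun h3 => h2.2 ⟨?_, h3⟩⟩⟩
      exact fun h4 => hv (h2.1.symm.trans h4)

omit [Fintype V] in
theorem sd_mem {B : Finset V} {a v : V} (hv : v ≠ a) : a ∈ B ∆ {v} ↔ a ∈ B := by
  simp only [mem_symmDiff, mem_singleton]
  constructor
  · rintro (h | h)
    · exact h.1
    · exact absurd h.1.symm hv
  · intro h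
    exact Or.inl ⟨h, fun h1 => hv h1.symm⟩

omit [Fintype V] in
theorem sd_self_mem {B : Finset V} {a : V} (ha : a ∈ B) : B ∆ {a} = B.erase a := by
  ext z
  simp only [mem_symmDiff, mem_singleton, mem_erase]
  constructor
  · rintro (h | h)
    · exact ⟨h.2, h.1⟩
    · exact absurd (h.1 ▸ ha) h.2
  · rintro ⟨h1, h2⟩
    exact Or.inl ⟨h2, h1⟩

omit [Fintype V] in
theorem sd_self_notMem {B : Finset V} {a : V} (ha : a ∉ B) : B ∆ {a} = insert a B := by
  ext z
  simp only [mem_symmDiff, mem_singleton, mem_insert]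
  constructor
  · rintro (h | h)
    · exact Or.inr h.1
    · exact Or.inl h.1
  · rintro (h | h)
    · exact Or.inr ⟨h, by rw [h]; exact ha⟩
    · exact Or.inl ⟨h, fun h1 => ha (h1 ▸ h)⟩

/-- adding a largest element -/
theorem LevOn.insert {x : V → ℝ} (hx : ∀ v, 0 < x v) {s : Finset V} {N : Finset V → ℝ}
    (h : LevOn x s N) {a : V} (ha : a ∉ s) (hmax : ∀ u ∈ s, x u ≤ x a) :
    LevOn x (insert a s) (fun B => if a ∈ B then x a / N (B.erase a) else N B) := by
  have hsub : ∀ B ⊆ Insert.insert a s, B.erase a ⊆ s := by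
    intro B hB z hz
    rw [mem_erase] at hz
    rcases mem_insert.1 (hB hz.2) with h1 | h1
    · exact absurd h1 hz.1
    · exact h1
  have hsub' : ∀ B ⊆ Insert.insert a s, a ∉ B → B ⊆ s := by
    intro B hB haB z hz
    rcases mem_insert.1 (hB hz) with h1 | h1
    · exact absurd (h1 ▸ hz) haB
    · exact h1
  have hsd : ∀ B ⊆ s, ∀ v ∈ s, B ∆ {v} ⊆ s := by
    intro B hB v hv z hz
    simp only [mem_symmDiff, mem_singleton] at hz
    rcases hz with h1 | h1
    · exact hB h1.1
    · rw [h1.1]; exact hv
  have hxa := hx a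
  -- the two sided bounds, then the steps
  have hne : ∀ v ∈ s, v ≠ a := fun v hv h1 => ha (h1 ▸ hv)
  have hlow : ∀ B ⊆ Insert.insert a s, ∀ v ∈ Insert.insert a s,
      x v ≤ (if a ∈ B then x a / N (B.erase a) else N B) *
        (if a ∈ B ∆ {v} then x a / N ((B ∆ {v}).erase a) else N (B ∆ {v})) := by
    intro B hB v hv
    rcases mem_insert.1 hv with rfl | hvs
    · by_cases haB : v ∈ B
      · have h1 : v ∉ B ∆ {v} := by
          rw [sd_self_mem haB]
          exact notMem_erase v B
        rw [if_pos haB, if_neg h1, sd_self_mem haB]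
        have h2 := h.pos _ (hsub B hB)
        rw [div_mul_cancel₀ _ h2.ne']
      · have h1 : v ∈ B ∆ {v} := by
          rw [sd_self_notMem haB]
          exact mem_insert_self v B
        rw [if_neg haB, if_pos h1, sd_self_notMem haB, erase_insert haB]
        have h2 := h.pos _ (hsub' B hB haB)
        rw [mul_div_cancel₀ _ h2.ne']
    · have hva := hne v hvs
      by_cases haB : a ∈ B
      · have h1 : a ∈ B ∆ {v} := (sd_mem hva).2 haB
        rw [if_pos haB, if_pos h1, sd_erase hva]
        have hBs := hsub B hB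
        have h2 := h.pos _ hBs
        have h3 := h.pos _ (hsd _ hBs v hvs)
        have h4 := h.up _ hBs v hvs (x a) hmax
        rw [div_mul_div_comm, le_div_iff₀ (mul_pos h2 h3)]
        nlinarith
      · have h1 : a ∉ B ∆ {v} := fun h2 => haB ((sd_mem hva).1 h2)
        rw [if_neg haB, if_neg h1]
        exact h.low _ (hsub' B hB haB) v hvs
  have hup : ∀ B ⊆ Insert.insert a s, ∀ v ∈ Insert.insert a s,
      x v * ((if a ∈ B then x a / N (B.erase a) else N B) *
        (if a ∈ B ∆ {v} then x a / N ((B ∆ {v}).erase a) else N (B ∆ {v}))) ≤ x a ^ 2 := by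
    intro B hB v hv
    rcases mem_insert.1 hv with rfl | hvs
    · by_cases haB : v ∈ B
      · have h1 : v ∉ B ∆ {v} := by
          rw [sd_self_mem haB]
          exact notMem_erase v B
        rw [if_pos haB, if_neg h1, sd_self_mem haB]
        have h2 := h.pos _ (hsub B hB)
        rw [div_mul_cancel₀ _ h2.ne', sq]
      · have h1 : v ∈ B ∆ {v} := by
          rw [sd_self_notMem haB]
          exact mem_insert_self v B
        rw [if_neg haB, if_pos h1, sd_self_notMem haB, erase_insert haB]
        have h2 := h.pos _ (hsub' B hB haB)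
        rw [mul_div_cancel₀ _ h2.ne', sq]
    · have hva := hne v hvs
      by_cases haB : a ∈ B
      · have h1 : a ∈ B ∆ {v} := (sd_mem hva).2 haB
        rw [if_pos haB, if_pos h1, sd_erase hva]
        have hBs := hsub B hB
        have h2 := h.pos _ hBs
        have h3 := h.pos _ (hsd _ hBs v hvs)
        have h4 := h.low _ hBs v hvs
        rw [div_mul_div_comm, ← mul_div_assoc, div_le_iff₀ (mul_pos h2 h3)]
        nlinarith [mul_pos hxa hxa]
      · have h1 : a ∉ B ∆ {v} := fun h2 => haB ((sd_mem hva).1 h2)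
        rw [if_neg haB, if_neg h1]
        exact h.up _ (hsub' B hB haB) v hvs (x a) hmax
  have hpos : ∀ B ⊆ Insert.insert a s, 0 < (if a ∈ B then x a / N (B.erase a) else N B) := by
    intro B hB
    by_cases haB : a ∈ B
    · rw [if_pos haB]
      exact div_pos hxa (h.pos _ (hsub B hB))
    · rw [if_neg haB]
      exact h.pos _ (hsub' B hB haB)
  have hsdi : ∀ B ⊆ Insert.insert a s, ∀ v ∈ Insert.insert a s, B ∆ {v} ⊆ Insert.insert a s := by
    intro B hB v hv z hz
    simp only [mem_symmDiff, mem_singleton] at hz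
    rcases hz with h1 | h1
    · exact hB h1.1
    · rw [h1.1]; exact hv
  -- a step with the largest element
  have hstepa : ∀ B ⊆ Insert.insert a s, ∀ v ∈ s,
      (if a ∈ B ∆ {a} ∆ {v} then x a / N ((B ∆ {a} ∆ {v}).erase a) else N (B ∆ {a} ∆ {v})) ≤
        ratio x a v * (if a ∈ B then x a / N (B.erase a) else N B) := by
    intro B hB v hvs
    have hva := hne v hvs
    have hr : x a / x v ≤ ratio x a v := le_max_left _ _
    have hpB := hpos B hB
    refine le_trans ?_ (mul_le_mul_of_nonneg_right hr hpB.le)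
    by_cases haB : a ∈ B
    · have h1 : a ∉ B ∆ {a} ∆ {v} := by
        rw [sd_mem hva, sd_self_mem haB]
        exact notMem_erase a B
      rw [if_neg h1, if_pos haB, sd_self_mem haB]
      have hBs := hsub B hB
      have h2 := h.pos _ hBs
      have h4 := h.up _ hBs v hvs (x a) hmax
      rw [div_mul_div_comm, le_div_iff₀ (mul_pos (hx v) h2)]
      nlinarith
    · have h1 : a ∈ B ∆ {a} ∆ {v} := by
        rw [sd_mem hva, sd_self_notMem haB]
        exact mem_insert_self a B
      rw [if_pos h1, if_neg haB, sd_erase hva, sd_self_notMem haB, erase_insert haB]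
      have hBs := hsub' B hB haB
      have h2 := h.pos _ (hsd _ hBs v hvs)
      have h4 := h.low _ hBs v hvs
      rw [div_mul_eq_mul_div, div_le_div_iff₀ h2 (hx v)]
      nlinarith
  constructor
  · exact hpos
  · rw [if_neg (notMem_empty a)]
    exact h.empty
  · intro k hk
    rcases mem_insert.1 hk with rfl | hks
    · rw [if_pos (mem_singleton_self k)]
      have h1 : ({k} : Finset V).erase k = ∅ := by
        rw [← insert_empty_eq, erase_insert (notMem_empty k)]
      rw [h1, h.empty, div_one]
    · rw [if_neg (fun h1 => hne k hks (mem_singleton.1 h1).symm)]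
      exact h.single k hks
  · intro B hB u hu v hv
    rcases mem_insert.1 hu with rfl | hus
    · rcases mem_insert.1 hv with rfl | hvs
      · rw [symmDiff_symmDiff_cancel_right]
        exact le_mul_of_one_le_left (hpos B hB).le (one_le_ratio hx _ _)
      · exact hstepa B hB v hvs
    · rcases mem_insert.1 hv with rfl | hvs
      · rw [symmDiff_assoc, symmDiff_comm ({u} : Finset V) {v}, ← symmDiff_assoc, ratio_comm]
        exact hstepa B hB u hus
      · have hua := hne u hus
        have hva := hne v hvs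
        by_cases haB : a ∈ B
        · have h1 : a ∈ B ∆ {u} ∆ {v} := by rw [sd_mem hva, sd_mem hua]; exact haB
          rw [if_pos h1, if_pos haB, sd_erase hva, sd_erase hua]
          have hBs := hsub B hB
          have hBu := hsd _ hBs u hus
          have hBuv := hsd _ hBu v hvs
          have h2 := h.pos _ hBs
          have h3 := h.pos _ hBuv
          have h4 := h.step _ hBuv v hvs u hus
          rw [symmDiff_symmDiff_cancel_right, symmDiff_symmDiff_cancel_right, ratio_comm] at h4
          rw [← mul_div_assoc, div_le_div_iff₀ h3 h2]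
          nlinarith
        · have h1 : a ∉ B ∆ {u} ∆ {v} := by rw [sd_mem hva, sd_mem hua]; exact haB
          rw [if_neg h1, if_neg haB]
          exact h.step _ (hsub' B hB haB) u hus v hvs
  · exact hlow
  · intro B hB v hv m hm
    refine (hup B hB v hv).trans ?_
    have h1 := hm a (mem_insert_self a s)
    exact pow_le_pow_left₀ hxa.le h1 2

theorem exists_levOn (x : V → ℝ) (hx : ∀ v, 0 < x v) (s : Finset V) :
    ∃ N : Finset V → ℝ, LevOn x s N := by
  induction s using Finset.induction_on_max_value x with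
  | empty =>
    refine ⟨fun _ => 1, fun _ _ => one_pos, rfl, ?_, ?_, ?_, ?_⟩
    · intro k hk
      exact absurd hk (notMem_empty k)
    · intro B _ u hu
      exact absurd hu (notMem_empty u)
    · intro B _ u hu
      exact absurd hu (notMem_empty u)
    · intro B _ u hu
      exact absurd hu (notMem_empty u)
  | insert a s ha hmax ih =>
    obtain ⟨N, hN⟩ := ih
    exact ⟨_, hN.insert hx ha hmax⟩

theorem exists_level (x : V → ℝ) (hx : ∀ v, 0 < x v) : ∃ N : Finset V → ℝ, Level x N := by
  obtain ⟨N, hN⟩ := exists_levOn x hx univ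
  exact ⟨N, fun B => hN.pos B (subset_univ B), fun k => hN.single k (mem_univ k),
    fun B u v => hN.step B (subset_univ B) u (mem_univ u) v (mem_univ v)⟩

theorem Level.parity {x : V → ℝ} {N : Finset V → ℝ} (hx : ∀ v, 0 < x v) (h : Level x N) (v : V)
    (C S : Finset V) :
    (Even S.card → N (C ∆ S) ≤ (∏ u ∈ S, ratio x v u) * N C) ∧
      (Odd S.card → N (C ∆ {v} ∆ S) ≤ (∏ u ∈ S, ratio x v u) * N C) := by
  induction S using Finset.induction_on with
  | empty =>
    constructor
    · intro _
      have h1 : C ∆ ∅ = C := symmDiff_bot C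
      rw [h1, prod_empty, one_mul]
    · intro h1
      rw [card_empty] at h1
      exact absurd h1 (by decide)
  | insert u S hu ih =>
    have hins : Insert.insert u S = S ∆ {u} := (sd_self_notMem hu).symm
    rw [prod_insert hu, card_insert_of_notMem hu]
    constructor
    · intro hev
      have hodd : Odd S.card := by
        rw [Nat.even_add_one, Nat.not_even_iff_odd] at hev
        exact hev
      have h1 := h.step (C ∆ {v} ∆ S) v u
      have h2 : C ∆ {v} ∆ S ∆ {v} ∆ {u} = C ∆ (Insert.insert u S) := by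
        rw [hins, ← symmDiff_assoc]
        congr 1
        rw [symmDiff_assoc C {v} S, symmDiff_comm {v} S, ← symmDiff_assoc,
          symmDiff_symmDiff_cancel_right]
      rw [h2] at h1
      refine h1.trans ?_
      rw [mul_assoc]
      exact mul_le_mul_of_nonneg_left (ih.2 hodd) (ratio_pos hx v u).le
    · intro hodd
      have hev : Even S.card := by
        rw [Nat.odd_add_one, Nat.not_odd_iff_even] at hodd
        exact hodd
      have h1 := h.step (C ∆ S) v u
      have h2 : C ∆ S ∆ {v} ∆ {u} = C ∆ {v} ∆ (Insert.insert u S) := by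
        rw [hins, ← symmDiff_assoc]
        congr 1
        rw [symmDiff_assoc, symmDiff_comm S {v}, ← symmDiff_assoc]
      rw [h2] at h1
      refine h1.trans ?_
      rw [mul_assoc]
      exact mul_le_mul_of_nonneg_left (ih.1 hev) (ratio_pos hx v u).le

theorem Level.odd {x : V → ℝ} {N : Finset V → ℝ} (hx : ∀ v, 0 < x v) (h : Level x N) (v : V)
    (C S : Finset V) (hS : Odd S.card) :
    N (C ∆ {v} ∆ S) ≤ (∏ u ∈ S, ratio x v u) * N C := (h.parity hx v C S).2 hS

theorem Level.even {x : V → ℝ} {N : Finset V → ℝ} (hx : ∀ v, 0 < x v) (h : Level x N) (v : V)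
    (C S : Finset V) (hS : Even S.card) :
    N (C ∆ S) ≤ (∏ u ∈ S, ratio x v u) * N C := (h.parity hx v C S).1 hS

end Pool.Agent.Lib.MP_f82811_pr.WC
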