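import Pool.Agent.Lib.MP_f82811_pr.WC.Walsh
import Pool.Agent.Lib.MP_f82811_pr.WC.Level

/-!
# Weak couplings: the moments of the eigenfunction
-/

set_option autoImplicit false

namespace Pool.Agent.Lib.MP_f82811_pr.WC

open Finset HT symmDiff

variable {V : Type*} [Fintype V] [DecidableEq V]

/-! ### Oddness of the conditional means -/

omit [DecidableEq V] in
theorem fld_neg (A : V → V → ℝ) (v : V) (σ : V → Bool) : fld A v (neg σ) = -fld A v σ := by
  unfold fld
  rw [← Finset.sum_neg_distrib]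
  exact Finset.sum_congr rfl fun u _ => by rw [sp_neg]; ring

omit [DecidableEq V] in
theorem tau_neg (A : V → V → ℝ) (v : V) (σ : V → Bool) : tau A v (neg σ) = -tau A v σ := by
  unfold tau
  rw [fld_neg, Real.tanh_neg]

/-! ### Differences of Walsh functions -/

omit [Fintype V] in
theorem D_chi (k : V) (C : Finset V) (σ : V → Bool) :
    D k (chi C) σ = if k ∈ C then chi (C.erase k) σ else 0 := by
  split_ifs with h
  · unfold D chi
    rw [← Finset.mul_prod_erase C _ h, ← Finset.mul_prod_erase C _ h, sp_update_true,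
      sp_update_false]
    have h3 : ∀ b, ∏ x ∈ C.erase k, sp x (Function.update σ k b) = ∏ x ∈ C.erase k, sp x σ :=
      fun b => Finset.prod_congr rfl fun x hx => sp_update_ne (Finset.ne_of_mem_erase hx) σ b
    rw [h3, h3]
    ring
  · unfold D chi
    have h3 : ∀ b, ∏ x ∈ C, sp x (Function.update σ k b) = ∏ x ∈ C, sp x σ :=
      fun b => Finset.prod_congr rfl fun x hx =>
        sp_update_ne (fun h' => h (by rw [← h']; exact hx)) σ b
    rw [h3, h3]
    ring

omit [Fintype V] in
theorem sp_mul_chi_erase {k : V} {C : Finset V} (h : k ∈ C) (σ : V → Bool) :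
    sp k σ * chi (C.erase k) σ = chi C σ := by
  unfold chi
  exact Finset.mul_prod_erase C (fun v => sp v σ) h

/-! ### The equation of the moments -/

theorem mom_mul (A : V → V → ℝ) (f g : (V → Bool) → ℝ) (C : Finset V) :
    ∑ σ, W A σ * (g σ * chi C σ * f σ) = ∑ S, hat g S * mom A f (S ∆ C) := by
  unfold mom
  have h1 : ∀ σ : V → Bool, W A σ * (g σ * chi C σ * f σ) =
      ∑ S, hat g S * (W A σ * (chi (S ∆ C) σ * f σ)) := by
    intro σ
    conv_lhs => rw [inversion g σ]
    rw [Finset.sum_mul, Finset.sum_mul, Finset.mul_sum]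
    refine Finset.sum_congr rfl fun S _ => ?_
    rw [chi_symmDiff]
    ring
  rw [Finset.sum_congr rfl fun σ _ => h1 σ, Finset.sum_comm]
  exact Finset.sum_congr rfl fun S _ => by rw [Finset.mul_sum]

/-- The adjoint form of the spectral identity. -/
theorem eig_adjoint {A : V → V → ℝ} (hA : Coup A) {f : (V → Bool) → ℝ} {lam : ℝ}
    (h : Eig A f lam) (Ψ : (V → Bool) → ℝ) :
    lam * ∑ σ, W A σ * (Ψ σ * f σ) =
      ∑ k, ∑ σ, W A σ * ((sp k σ - tau A k σ) * D k Ψ σ * f σ) := by
  have h1 : ∑ σ, W A σ * (Ψ σ * f σ) = ∑ σ, W A σ * (f σ * Ψ σ) :=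
    Finset.sum_congr rfl fun σ _ => by ring
  rw [h1, eig_pairing hA h]
  refine Finset.sum_congr rfl fun k _ => ?_
  rw [ibp hA k (D k Ψ) f (D_update k Ψ)]
  exact Finset.sum_congr rfl fun σ _ => by ring

theorem mom_eq {A : V → V → ℝ} {f : (V → Bool) → ℝ} {lam : ℝ} (hA : Coup A) (h : Eig A f lam)
    (C : Finset V) :
    ((C.card : ℝ) - lam) * mom A f C =
      ∑ v ∈ C, ∑ S, hat (tau A v) S * mom A f (S ∆ (C.erase v)) := by
  have h1 := eig_adjoint hA h (chi C)
  have h2 : ∀ k, ∑ σ, W A σ * ((sp k σ - tau A k σ) * D k (chi C) σ * f σ) =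
      if k ∈ C then mom A f C - ∑ S, hat (tau A k) S * mom A f (S ∆ (C.erase k)) else 0 := by
    intro k
    split_ifs with hk
    · rw [← mom_mul]
      unfold mom
      rw [← Finset.sum_sub_distrib]
      refine Finset.sum_congr rfl fun σ _ => ?_
      rw [D_chi, if_pos hk, ← sp_mul_chi_erase hk]
      ring
    · refine Finset.sum_eq_zero fun σ _ => ?_
      rw [D_chi, if_neg hk]
      ring
  rw [Finset.sum_congr rfl fun k _ => h2 k, Finset.sum_ite_mem, Finset.univ_inter,
    Finset.sum_sub_distrib, Finset.sum_const, nsmul_eq_mul] at h1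
  change lam * mom A f C = _ at h1
  linarith

theorem mom_even {A : V → V → ℝ} {f : (V → Bool) → ℝ} (hodd : ∀ σ, f (neg σ) = -f σ)
    {C : Finset V} (hC : Even C.card) : mom A f C = 0 := by
  unfold mom
  have h1 : ∑ σ, W A σ * (chi C σ * f σ) = -∑ σ, W A σ * (chi C σ * f σ) := by
    conv_lhs => rw [← sum_neg']
    rw [← Finset.sum_neg_distrib]
    refine Finset.sum_congr rfl fun σ _ => ?_
    rw [hodd, chi_neg, hC.neg_one_pow, W_neg]
    ring
  linarith

theorem mom_bound {A : V → V → ℝ} {f : (V → Bool) → ℝ} {lam φ M1 : ℝ} {x : V → ℝ}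
    {N : Finset V → ℝ} (hA : Coup A) (h : Eig A f lam) (hodd : ∀ σ, f (neg σ) = -f σ)
    (hlam : lam ≤ 1) (hx : ∀ v, 0 < x v) (hN : Level x N)
    (hφ : ∀ v, nrm (ratio x v) (tau A v) ≤ φ) (hφ1 : φ < 2 / 3)
    (hM1 : 0 ≤ M1) (h1 : ∀ k, |mom A f {k}| ≤ M1 * x k) (C : Finset V) :
    |mom A f C| ≤ M1 * N C := by
  obtain ⟨B, -, hB⟩ := Finset.exists_max_image (Finset.univ : Finset (Finset V))
    (fun C => |mom A f C| / N C) ⟨∅, Finset.mem_univ _⟩
  set Q := |mom A f B| / N B with hQ
  have hle : ∀ C, |mom A f C| ≤ Q * N C := fun C => by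
    have := hB C (Finset.mem_univ C)
    rwa [div_le_iff₀ (hN.pos C)] at this
  suffices hQ1 : Q ≤ M1 from
    (hle C).trans (mul_le_mul_of_nonneg_right hQ1 (hN.pos C).le)
  by_contra hcon
  push Not at hcon
  have hQ0 : 0 < Q := lt_of_le_of_lt hM1 hcon
  have hBN : |mom A f B| = Q * N B := by rw [hQ, div_mul_cancel₀ _ (hN.pos B).ne']
  have hBodd : Odd B.card := by
    by_contra hev
    rw [Nat.not_odd_iff_even] at hev
    rw [mom_even hodd hev, abs_zero] at hBN
    have := mul_pos hQ0 (hN.pos B)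
    linarith
  have hB3 : 3 ≤ B.card := by
    obtain ⟨n, hn⟩ := hBodd
    rcases Nat.eq_zero_or_pos n with h0 | h0
    · have hc : B.card = 1 := by omega
      obtain ⟨k, hk⟩ := Finset.card_eq_one.1 hc
      have h2 := h1 k
      rw [hk, hN.single] at hBN
      rw [hBN] at h2
      have := le_of_mul_le_mul_right h2 (hx k)
      linarith
    · omega
  -- the equation
  have heq := mom_eq hA h B
  have hcard : (3 : ℝ) ≤ B.card := by exact_mod_cast hB3
  have hterm : ∀ v ∈ B, |∑ S, hat (tau A v) S * mom A f (S ∆ (B.erase v))| ≤ φ * (Q * N B) := by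
    intro v hv
    refine (Finset.abs_sum_le_sum_abs _ _).trans ?_
    have h2 : ∀ S, |hat (tau A v) S * mom A f (S ∆ (B.erase v))| ≤
        (|hat (tau A v) S| * ∏ u ∈ S, ratio x v u) * (Q * N B) := by
      intro S
      by_cases hS : Odd S.card
      · rw [abs_mul, mul_assoc]
        refine mul_le_mul_of_nonneg_left ?_ (abs_nonneg _)
        have h3 := hN.odd hx v B S hS
        have h4 : S ∆ (B.erase v) = B ∆ {v} ∆ S := by
          rw [symmDiff_comm]
          congr 1
          ext u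
          by_cases hu : u = v
          · subst hu; simp [Finset.mem_symmDiff, hv]
          · simp [Finset.mem_symmDiff, hu]
        rw [h4]
        calc _ ≤ Q * N (B ∆ {v} ∆ S) := hle _
          _ ≤ Q * ((∏ u ∈ S, ratio x v u) * N B) := mul_le_mul_of_nonneg_left h3 hQ0.le
          _ = _ := by ring
      · rw [Nat.not_odd_iff_even] at hS
        rw [hat_odd (tau_neg A v) hS]
        simp
    refine (Finset.sum_le_sum fun S _ => h2 S).trans ?_
    rw [← Finset.sum_mul]
    exact mul_le_mul_of_nonneg_right (hφ v) (mul_pos hQ0 (hN.pos B)).le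
  have h5 : ((B.card : ℝ) - lam) * (Q * N B) ≤ (B.card : ℝ) * (φ * (Q * N B)) := by
    have h6 : ((B.card : ℝ) - lam) * |mom A f B| =
        |∑ v ∈ B, ∑ S, hat (tau A v) S * mom A f (S ∆ (B.erase v))| := by
      rw [← heq, abs_mul, abs_of_nonneg (show (0 : ℝ) ≤ (B.card : ℝ) - lam by linarith)]
    rw [← hBN, h6]
    refine (Finset.abs_sum_le_sum_abs _ _).trans ?_
    refine (Finset.sum_le_sum hterm).trans ?_
    rw [Finset.sum_const, nsmul_eq_mul, hBN]
  have h7 : 0 < Q * N B := mul_pos hQ0 (hN.pos B)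
  have h8 : (B.card : ℝ) - lam ≤ (B.card : ℝ) * φ := by
    refine le_of_mul_le_mul_right ?_ h7
    calc _ ≤ _ := h5
      _ = _ := by ring
  nlinarith

end Pool.Agent.Lib.MP_f82811_pr.WC
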