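import Pool.Agent.Lib.MP_f82811_pr.HT.Num

/-!
# Weak couplings: definitions

Walsh functions, Walsh coefficients and weighted norms.
-/

set_option autoImplicit false

namespace Pool.Agent.Lib.MP_f82811_pr.WC

open Finset HT symmDiff

variable {V : Type*} [Fintype V] [DecidableEq V]

/-- The Walsh function of `S`. -/
def chi (S : Finset V) (σ : V → Bool) : ℝ := ∏ v ∈ S, sp v σ

/-- The Walsh coefficients. -/
noncomputable def hat (g : (V → Bool) → ℝ) (S : Finset V) : ℝ :=
  (∑ σ, g σ * chi S σ) / 2 ^ Fintype.card V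

/-- The weighted norm of the Walsh coefficients. -/
noncomputable def nrm (w : V → ℝ) (g : (V → Bool) → ℝ) : ℝ :=
  ∑ S : Finset V, |hat g S| * ∏ u ∈ S, w u

/-- The ratio of two levels. -/
noncomputable def ratio (x : V → ℝ) (u v : V) : ℝ := max (x u / x v) (x v / x u)

/-- The moments of `f`. -/
noncomputable def mom (A : V → V → ℝ) (f : (V → Bool) → ℝ) (S : Finset V) : ℝ :=
  ∑ σ, W A σ * (chi S σ * f σ)

/-- A level function for `x`. -/
structure Level (x : V → ℝ) (N : Finset V → ℝ) : Prop where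
  pos : ∀ B, 0 < N B
  single : ∀ k, N {k} = x k
  step : ∀ B u v, N (B ∆ {u} ∆ {v}) ≤ ratio x u v * N B

end Pool.Agent.Lib.MP_f82811_pr.WC
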