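import Pool.Agent.Lib.MP_f82811_pr.WC.Walsh

/-!
# Weak couplings: weighted norms of the conditional means
-/

set_option autoImplicit false

namespace Pool.Agent.Lib.MP_f82811_pr.WC

open Finset HT symmDiff

variable {V : Type*} [Fintype V] [DecidableEq V]

/-! ### Addition formulas -/

theorem tanh_add' (x y : ℝ) : Real.tanh (x + y) =
    (Real.tanh x + Real.tanh y) / (1 + Real.tanh x * Real.tanh y) := by
  have hx := (Real.cosh_pos x).ne'
  have hy := (Real.cosh_pos y).ne'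
  have hxy : Real.cosh x * Real.cosh y + Real.sinh x * Real.sinh y ≠ 0 := by
    rw [← Real.cosh_add]
    exact (Real.cosh_pos _).ne'
  rw [Real.tanh_eq_sinh_div_cosh, Real.tanh_eq_sinh_div_cosh, Real.tanh_eq_sinh_div_cosh,
    Real.sinh_add, Real.cosh_add]
  have h1 : 1 + Real.sinh x / Real.cosh x * (Real.sinh y / Real.cosh y) =
      (Real.cosh x * Real.cosh y + Real.sinh x * Real.sinh y) / (Real.cosh x * Real.cosh y) := by
    field_simp
  rw [h1]
  field_simp

omit [Fintype V] [DecidableEq V] in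
theorem tanh_mul_sp (a : ℝ) (v : V) (σ : V → Bool) :
    Real.tanh (a * sp v σ) = Real.tanh a * sp v σ := by
  unfold sp
  cases σ v
  · simp [spin, Real.tanh_neg]
  · simp [spin]

theorem abs_tanh_lt_one (x : ℝ) : |Real.tanh x| < 1 :=
  abs_lt.2 ⟨Real.neg_one_lt_tanh x, Real.tanh_lt_one x⟩

/-! ### The norm of a hyperbolic tangent -/

/-- The bounding function. -/
theorem bound_step {s b : ℝ} (hs : 0 ≤ s) (hb : 0 ≤ b) (h : s + b < 1) :
    (s / (1 - s ^ 2 / 2) + b) / (1 - b * (s / (1 - s ^ 2 / 2))) ≤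
      (s + b) / (1 - (s + b) ^ 2 / 2) := by
  have h1 : 0 < 1 - s ^ 2 / 2 := by nlinarith
  have h2 : 0 < 1 - (s + b) ^ 2 / 2 := by nlinarith
  have h3 : 0 < 1 - s ^ 2 / 2 - b * s := by nlinarith
  have e1 : 1 - b * (s / (1 - s ^ 2 / 2)) = (1 - s ^ 2 / 2 - b * s) / (1 - s ^ 2 / 2) := by
    rw [sub_div (1 - s ^ 2 / 2), div_self h1.ne', mul_div_assoc]
  have e2 : s / (1 - s ^ 2 / 2) + b = (s + b * (1 - s ^ 2 / 2)) / (1 - s ^ 2 / 2) := by
    rw [add_div, mul_div_cancel_right₀ _ h1.ne']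
  rw [e1, e2, div_div_div_cancel_right₀ h1.ne', div_le_div_iff₀ h3 h2]
  have h4 : 0 ≤ b * s ^ 2 / 2 * (1 - (s + b) ^ 2 / 2) := by positivity
  have h5 : 0 ≤ (s + b) * (b ^ 2 / 2) := by positivity
  nlinarith [h4, h5]

theorem bound_mono {s t : ℝ} (hs : 0 ≤ s) (hst : s ≤ t) (ht : t < 1) :
    s / (1 - s ^ 2 / 2) ≤ t / (1 - t ^ 2 / 2) := by
  have h2 : 0 < 1 - t ^ 2 / 2 := by nlinarith
  have h1 : 0 < 1 - s ^ 2 / 2 := by nlinarith
  rw [div_le_div_iff₀ h1 h2]
  nlinarith [mul_nonneg hs (sub_nonneg.2 hst), mul_nonneg (hs.trans hst) (sub_nonneg.2 hst),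
    mul_nonneg (mul_nonneg hs (hs.trans hst)) (sub_nonneg.2 hst)]

/-- The norm of the hyperbolic tangent of a partial field. -/
theorem nrm_tanh_sum {a w : V → ℝ} (ha : ∀ u, 0 ≤ a u) (hw : ∀ u, 1 ≤ w u) (s : Finset V)
    (hs : ∑ u ∈ s, a u * w u < 1) :
    nrm w (fun σ => Real.tanh (∑ u ∈ s, a u * sp u σ)) ≤
      (∑ u ∈ s, a u * w u) / (1 - (∑ u ∈ s, a u * w u) ^ 2 / 2) := by
  have hw0 : ∀ u, 0 ≤ w u := fun u => zero_le_one.trans (hw u)
  induction s using Finset.induction_on with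
  | empty =>
    simp only [Finset.sum_empty, Real.tanh_zero]
    rw [nrm_const]
    simp
  | insert i s hi ih =>
    rw [Finset.sum_insert hi] at hs ⊢
    have haw : 0 ≤ a i * w i := mul_nonneg (ha i) (hw0 i)
    have hS0 : 0 ≤ ∑ u ∈ s, a u * w u := Finset.sum_nonneg fun u _ => mul_nonneg (ha u) (hw0 u)
    have hS1 : ∑ u ∈ s, a u * w u < 1 := by linarith
    have ih' := ih hS1
    set S := ∑ u ∈ s, a u * w u with hS
    set T : (V → Bool) → ℝ := fun σ => Real.tanh (∑ u ∈ s, a u * sp u σ) with hT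
    set t := Real.tanh (a i) with ht
    have ht0 : 0 ≤ t := by
      have h1 : Real.tanh 0 ≤ Real.tanh (a i) := tanh_mono (ha i)
      rwa [Real.tanh_zero] at h1
    have ht1 : t ≤ a i := by
      have h1 := abs_tanh_le (a i)
      rw [abs_of_nonneg ht0, abs_of_nonneg (ha i)] at h1
      exact h1
    have hTn0 : 0 ≤ nrm w T := nrm_nonneg hw0 T
    have hb0 : 0 ≤ t * w i := mul_nonneg ht0 (hw0 i)
    have hb1 : t * w i ≤ a i * w i := mul_le_mul_of_nonneg_right ht1 (hw0 i)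
    -- the norm of the correction
    have hden : 0 < 1 - S ^ 2 / 2 := by nlinarith
    have hφ0 : 0 ≤ S / (1 - S ^ 2 / 2) := div_nonneg hS0 hden.le
    have hlt : a i * w i * (S / (1 - S ^ 2 / 2)) < 1 := by
      rw [mul_div_assoc', div_lt_one hden]
      nlinarith
    have he : nrm w (fun σ => t * (sp i σ * T σ)) ≤ t * w i * nrm w T := by
      rw [nrm_smul, abs_of_nonneg ht0, mul_assoc]
      refine mul_le_mul_of_nonneg_left ?_ ht0
      have h1 := nrm_mul hw (sp i) T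
      rw [nrm_sp] at h1
      exact h1
    have he1 : t * w i * nrm w T ≤ a i * w i * (S / (1 - S ^ 2 / 2)) :=
      mul_le_mul hb1 ih' hTn0 haw
    have hform : (fun σ => Real.tanh (∑ u ∈ insert i s, a u * sp u σ)) =
        fun σ => (T σ + t * sp i σ) * (1 / (1 + t * (sp i σ * T σ))) := by
      funext σ
      rw [Finset.sum_insert hi, add_comm, tanh_add', tanh_mul_sp, mul_one_div]
      congr 1
      ring
    rw [hform]
    have hne : ∀ σ, 1 + t * (sp i σ * T σ) ≠ 0 := by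
      intro σ
      have h1 : |t * (sp i σ * T σ)| < 1 := by
        rw [abs_mul, abs_mul, abs_sp, one_mul, abs_of_nonneg ht0]
        have h2 : |T σ| < 1 := abs_tanh_lt_one _
        have h3 : t < 1 := Real.tanh_lt_one _
        have h4 := abs_nonneg (T σ)
        nlinarith
      have := (abs_lt.1 h1).1
      linarith
    have h1 : nrm w (fun σ => 1 / (1 + t * (sp i σ * T σ))) ≤
        1 / (1 - nrm w (fun σ => t * (sp i σ * T σ))) :=
      nrm_inv hw (fun σ => one_div_mul_cancel (hne σ)) (lt_of_le_of_lt (he.trans he1) hlt)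
    have h2 : nrm w (fun σ => T σ + t * sp i σ) ≤ nrm w T + t * w i := by
      have := nrm_add hw0 T (fun σ => t * sp i σ)
      rwa [nrm_smul, nrm_sp, abs_of_nonneg ht0] at this
    have h3 := nrm_mul hw (fun σ => T σ + t * sp i σ) (fun σ => 1 / (1 + t * (sp i σ * T σ)))
    refine h3.trans ?_
    have h4 : 1 / (1 - nrm w (fun σ => t * (sp i σ * T σ))) ≤
        1 / (1 - a i * w i * (S / (1 - S ^ 2 / 2))) := by
      apply one_div_le_one_div_of_le
      · linarith
      · linarith [he.trans he1]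
    have h5 : nrm w (fun σ => T σ + t * sp i σ) ≤ S / (1 - S ^ 2 / 2) + a i * w i := by
      linarith
    have h6 : 0 ≤ 1 / (1 - nrm w (fun σ => t * (sp i σ * T σ))) := by
      apply one_div_nonneg.2
      linarith [he.trans he1]
    calc _ ≤ (S / (1 - S ^ 2 / 2) + a i * w i) * (1 / (1 - a i * w i * (S / (1 - S ^ 2 / 2)))) :=
          mul_le_mul h5 (h1.trans h4) (nrm_nonneg hw0 _) (by positivity)
      _ = (S / (1 - S ^ 2 / 2) + a i * w i) / (1 - a i * w i * (S / (1 - S ^ 2 / 2))) := by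
          rw [mul_one_div]
      _ ≤ _ := by
          have h7 := bound_step hS0 haw (by linarith)
          rwa [add_comm S (a i * w i)] at h7

theorem nrm_tau {A : V → V → ℝ} (hA : Coup A) {w : V → ℝ} (hw : ∀ u, 1 ≤ w u) {s : ℝ} (v : V)
    (hs : ∑ u, A v u * w u ≤ s) (hs1 : s < 1) :
    nrm w (tau A v) ≤ s / (1 - s ^ 2 / 2) := by
  have h1 := nrm_tanh_sum (a := A v) (hA.nonneg v) hw univ (lt_of_le_of_lt hs hs1)
  refine h1.trans (bound_mono ?_ hs hs1)
  exact Finset.sum_nonneg fun u _ => mul_nonneg (hA.nonneg v u) (zero_le_one.trans (hw u))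

/-- The half difference of a hyperbolic tangent. -/
theorem half_diff (T t : ℝ) (h : t ^ 2 * T ^ 2 < 1) :
    ((T + t) / (1 + T * t) - (T - t) / (1 - T * t)) / 2 - t =
      -(t * (1 - t ^ 2)) * (T * T * (1 / (1 + (-(t ^ 2)) * (T * T)))) := by
  have h0 : 0 < (1 + T * t) * (1 - T * t) := by nlinarith
  have h1 : (1 + T * t) ≠ 0 := fun h' => by rw [h', zero_mul] at h0; exact lt_irrefl _ h0
  have h2 : (1 - T * t) ≠ 0 := fun h' => by rw [h', mul_zero] at h0; exact lt_irrefl _ h0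
  have h3 : 1 + (-(t ^ 2)) * (T * T) = (1 + T * t) * (1 - T * t) := by ring
  rw [h3]
  field_simp
  ring

theorem nrm_D_tau {A : V → V → ℝ} (hA : Coup A) {w : V → ℝ} (hw : ∀ u, 1 ≤ w u) {s φ : ℝ}
    (v i : V) (hs : ∑ u, A v u * w u ≤ s) (hs1 : s < 1) (hφ : s / (1 - s ^ 2 / 2) ≤ φ)
    (hφ1 : φ ≤ 1) (hA1 : A v i ≤ 1 / 4) :
    nrm w (fun σ => D i (tau A v) σ - Real.tanh (A v i)) ≤
      A v i * (φ ^ 2 / (1 - φ ^ 2 / 16)) := by
  have hw0 : ∀ u, 0 ≤ w u := fun u => zero_le_one.trans (hw u)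
  have haw : ∀ u, 0 ≤ A v u * w u := fun u => mul_nonneg (hA.nonneg v u) (hw0 u)
  set T : (V → Bool) → ℝ := fun σ => Real.tanh (∑ u ∈ univ.erase i, A v u * sp u σ) with hT
  set t := Real.tanh (A v i) with ht
  have ht0 : 0 ≤ t := by
    have h1 : Real.tanh 0 ≤ Real.tanh (A v i) := tanh_mono (hA.nonneg v i)
    rwa [Real.tanh_zero] at h1
  have ht1 : t ≤ A v i := by
    have h1 := abs_tanh_le (A v i)
    rw [abs_of_nonneg ht0, abs_of_nonneg (hA.nonneg v i)] at h1
    exact h1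
  have ht4 : t ^ 2 ≤ 1 / 16 := by nlinarith
  -- the norm of `T`
  have hsub : ∑ u ∈ univ.erase i, A v u * w u ≤ s :=
    (Finset.sum_le_sum_of_subset_of_nonneg (Finset.erase_subset _ _) fun u _ _ => haw u).trans hs
  have hS0 : 0 ≤ ∑ u ∈ univ.erase i, A v u * w u := Finset.sum_nonneg fun u _ => haw u
  have hTn : nrm w T ≤ φ := by
    have h1 := nrm_tanh_sum (a := A v) (hA.nonneg v) hw (univ.erase i)
      (lt_of_le_of_lt hsub hs1)
    exact h1.trans ((bound_mono hS0 hsub hs1).trans hφ)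
  have hTn0 : 0 ≤ nrm w T := nrm_nonneg hw0 T
  have hφ0 : 0 ≤ φ := hTn0.trans hTn
  have hTT : nrm w (fun σ => T σ * T σ) ≤ φ ^ 2 := by
    have h1 := nrm_mul hw T T
    nlinarith
  have hTT0 : 0 ≤ nrm w (fun σ => T σ * T σ) := nrm_nonneg hw0 _
  -- the values of the field
  have hfld : ∀ (σ : V → Bool) (b : Bool), fld A v (Function.update σ i b) =
      A v i * spin b + ∑ u ∈ univ.erase i, A v u * sp u σ := by
    intro σ b
    unfold fld
    rw [← Finset.add_sum_erase _ _ (Finset.mem_univ i), sp_update_self]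
    congr 1
    refine Finset.sum_congr rfl fun x hx => ?_
    rw [sp_update_ne (Finset.ne_of_mem_erase hx)]
  have hlt : ∀ σ, t ^ 2 * T σ ^ 2 < 1 := by
    intro σ
    have h1 := tanh_sq_lt_one (∑ u ∈ univ.erase i, A v u * sp u σ)
    have h2 : T σ ^ 2 < 1 := h1
    nlinarith [sq_nonneg (T σ), sq_nonneg t]
  have hform : (fun σ => D i (tau A v) σ - t) = fun σ =>
      -(t * (1 - t ^ 2)) * ((T σ * T σ) * (1 / (1 + (-(t ^ 2)) * (T σ * T σ)))) := by
    funext σ
    rw [← half_diff (T σ) t (hlt σ)]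
    unfold D tau
    rw [hfld, hfld, spin_true, spin_false, mul_one, mul_neg, mul_one, tanh_add', tanh_add',
      Real.tanh_neg]
    have e1 : (t + T σ) / (1 + t * T σ) = (T σ + t) / (1 + T σ * t) := by
      rw [add_comm t, mul_comm t]
    have e2 : (-t + T σ) / (1 + -t * T σ) = (T σ - t) / (1 - T σ * t) := by
      congr 1
      · ring
      · ring
    change ((t + T σ) / (1 + t * T σ) - (-t + T σ) / (1 + -t * T σ)) / 2 - t = _
    rw [e1, e2]
  rw [hform, nrm_smul]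
  have hq : |(-(t * (1 - t ^ 2)))| ≤ A v i := by
    rw [abs_neg, abs_of_nonneg (mul_nonneg ht0 (by linarith))]
    nlinarith [sq_nonneg t]
  have he : nrm w (fun σ => (-(t ^ 2)) * (T σ * T σ)) ≤ φ ^ 2 / 16 := by
    rw [nrm_smul, abs_neg, abs_of_nonneg (sq_nonneg t)]
    nlinarith [sq_nonneg t]
  have hφ2 : φ ^ 2 ≤ 1 := by nlinarith
  have hinv : nrm w (fun σ => 1 / (1 + (-(t ^ 2)) * (T σ * T σ))) ≤ 1 / (1 - φ ^ 2 / 16) := by
    have h1 := nrm_inv (w := w) hw (e := fun σ => (-(t ^ 2)) * (T σ * T σ))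
      (h := fun σ => 1 / (1 + (-(t ^ 2)) * (T σ * T σ)))
      (fun σ => one_div_mul_cancel (by
        have h2 := hlt σ
        have h3 : (-(t ^ 2)) * (T σ * T σ) = -(t ^ 2 * T σ ^ 2) := by ring
        rw [h3]
        intro h4
        linarith))
      (by linarith)
    refine h1.trans ?_
    apply one_div_le_one_div_of_le
    · linarith
    · linarith
  have hprod := nrm_mul hw (fun σ => T σ * T σ) (fun σ => 1 / (1 + (-(t ^ 2)) * (T σ * T σ)))
  have h1 : nrm w (fun σ => (T σ * T σ) * (1 / (1 + (-(t ^ 2)) * (T σ * T σ)))) ≤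
      φ ^ 2 / (1 - φ ^ 2 / 16) := by
    refine hprod.trans ?_
    calc _ ≤ φ ^ 2 * (1 / (1 - φ ^ 2 / 16)) :=
          mul_le_mul hTT hinv (nrm_nonneg hw0 _) (sq_nonneg φ)
      _ = _ := by rw [mul_one_div]
  exact mul_le_mul hq h1 (nrm_nonneg hw0 _) (hA.nonneg v i)

theorem nrm_sq_tau {A : V → V → ℝ} {w : V → ℝ} (hw : ∀ u, 1 ≤ w u) {φ : ℝ} {v : V}
    (h : nrm w (tau A v) ≤ φ) : nrm w (fun σ => tau A v σ ^ 2) ≤ φ ^ 2 := by
  have hw0 : ∀ u, 0 ≤ w u := fun u => zero_le_one.trans (hw u)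
  have h0 : 0 ≤ nrm w (tau A v) := nrm_nonneg hw0 _
  have h1 := nrm_mul hw (tau A v) (tau A v)
  have h2 : (fun σ => tau A v σ ^ 2) = fun σ => tau A v σ * tau A v σ := by
    funext σ
    ring
  rw [h2]
  nlinarith

end Pool.Agent.Lib.MP_f82811_pr.WC
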