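import Pool.Agent.Lib.MP_f82811_pr.WC.Defs

/-!
# Weak couplings: Walsh coefficients and weighted norms
-/

set_option autoImplicit false

namespace Pool.Agent.Lib.MP_f82811_pr.WC

open Finset HT symmDiff

variable {V : Type*} [Fintype V] [DecidableEq V]

/-! ### Walsh functions -/

omit [Fintype V] [DecidableEq V] in
theorem chi_empty (σ : V → Bool) : chi (∅ : Finset V) σ = 1 := by
  simp [chi]

omit [Fintype V] [DecidableEq V] in
theorem chi_single (v : V) (σ : V → Bool) : chi {v} σ = sp v σ := by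
  simp [chi]

theorem chi_eq_prod (S : Finset V) (σ : V → Bool) :
    chi S σ = ∏ v, if v ∈ S then sp v σ else 1 := by
  unfold chi
  rw [Finset.prod_ite_mem, Finset.univ_inter]

theorem chi_symmDiff (S T : Finset V) (σ : V → Bool) : chi (S ∆ T) σ = chi S σ * chi T σ := by
  rw [chi_eq_prod, chi_eq_prod, chi_eq_prod, ← Finset.prod_mul_distrib]
  refine Finset.prod_congr rfl fun v _ => ?_
  by_cases hS : v ∈ S <;> by_cases hT : v ∈ T <;> simp [Finset.mem_symmDiff, hS, hT, sp_sq]

theorem chi_mul_self (S : Finset V) (σ : V → Bool) : chi S σ * chi S σ = 1 := by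
  rw [← chi_symmDiff, symmDiff_self]
  exact chi_empty σ

omit [Fintype V] [DecidableEq V] in
theorem abs_chi (S : Finset V) (σ : V → Bool) : |chi S σ| = 1 := by
  unfold chi
  rw [Finset.abs_prod]
  exact Finset.prod_eq_one fun v _ => abs_sp v σ

omit [Fintype V] [DecidableEq V] in
theorem chi_neg (S : Finset V) (σ : V → Bool) : chi S (neg σ) = (-1) ^ S.card * chi S σ := by
  unfold chi
  have h : ∀ v, sp v (neg σ) = (-1) * sp v σ := fun v => by rw [sp_neg]; ring
  simp only [h, Finset.prod_mul_distrib, Finset.prod_const]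

theorem sum_chi (S : Finset V) : ∑ σ : V → Bool, chi S σ =
    if S = ∅ then (2 : ℝ) ^ Fintype.card V else 0 := by
  have h1 : ∑ σ : V → Bool, chi S σ = ∏ v : V, ∑ b : Bool, if v ∈ S then spin b else 1 := by
    rw [Finset.prod_univ_sum, Fintype.piFinset_univ]
    exact Finset.sum_congr rfl fun σ _ => chi_eq_prod S σ
  rw [h1]
  split_ifs with h
  · subst h
    simp
  · obtain ⟨v, hv⟩ := Finset.nonempty_iff_ne_empty.2 h
    refine Finset.prod_eq_zero (Finset.mem_univ v) ?_
    simp [hv, spin]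

omit [DecidableEq V] in
theorem sum_chi_mul (σ τ : V → Bool) : ∑ S : Finset V, chi S σ * chi S τ =
    if σ = τ then (2 : ℝ) ^ Fintype.card V else 0 := by
  have h1 : ∑ S : Finset V, chi S σ * chi S τ = ∏ v : V, (1 + sp v σ * sp v τ) := by
    rw [Finset.prod_one_add, Finset.powerset_univ]
    refine Finset.sum_congr rfl fun S _ => ?_
    unfold chi
    rw [Finset.prod_mul_distrib]
  rw [h1]
  split_ifs with h
  · subst h
    have h2 : ∀ v : V, 1 + sp v σ * sp v σ = 2 := fun v => by rw [sp_sq]; norm_num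
    simp only [h2, Finset.prod_const, Finset.card_univ]
  · obtain ⟨v, hv⟩ := Function.ne_iff.1 h
    refine Finset.prod_eq_zero (Finset.mem_univ v) ?_
    unfold sp
    revert hv
    cases σ v <;> cases τ v <;> simp [spin]

/-! ### Walsh coefficients -/

omit [DecidableEq V] in
theorem two_pow_pos : (0 : ℝ) < 2 ^ Fintype.card V := by positivity

theorem hat_chi (S T : Finset V) : hat (chi T) S = if S = T then 1 else 0 := by
  unfold hat
  have h1 : ∑ σ : V → Bool, chi T σ * chi S σ = ∑ σ : V → Bool, chi (T ∆ S) σ :=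
    Finset.sum_congr rfl fun σ _ => (chi_symmDiff T S σ).symm
  rw [h1, sum_chi]
  have h2 : T ∆ S = ∅ ↔ S = T := by
    rw [← Finset.bot_eq_empty, symmDiff_eq_bot, eq_comm]
  by_cases h : S = T
  · rw [if_pos (h2.2 h), if_pos h, div_self two_pow_pos.ne']
  · rw [if_neg (fun h' => h (h2.1 h')), if_neg h, zero_div]

theorem inversion (g : (V → Bool) → ℝ) (σ : V → Bool) : g σ = ∑ S, hat g S * chi S σ := by
  unfold hat
  have h1 : ∀ S : Finset V, (∑ τ, g τ * chi S τ) / 2 ^ Fintype.card V * chi S σ =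
      ∑ τ, g τ / 2 ^ Fintype.card V * (chi S τ * chi S σ) := by
    intro S
    rw [Finset.sum_div, Finset.sum_mul]
    exact Finset.sum_congr rfl fun τ _ => by ring
  simp only [h1]
  rw [Finset.sum_comm]
  have h2 : ∀ τ : V → Bool, ∑ S : Finset V, g τ / 2 ^ Fintype.card V * (chi S τ * chi S σ) =
      if τ = σ then g σ else 0 := by
    intro τ
    rw [← Finset.mul_sum, sum_chi_mul]
    split_ifs with h
    · subst h
      exact div_mul_cancel₀ _ two_pow_pos.ne'
    · exact mul_zero _
  simp only [h2, Finset.sum_ite_eq', Finset.mem_univ, if_true]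

theorem hat_add (g h : (V → Bool) → ℝ) (S : Finset V) :
    hat (fun σ => g σ + h σ) S = hat g S + hat h S := by
  unfold hat
  rw [← add_div, ← Finset.sum_add_distrib]
  congr 1
  exact Finset.sum_congr rfl fun σ _ => by ring

theorem hat_sub (g h : (V → Bool) → ℝ) (S : Finset V) :
    hat (fun σ => g σ - h σ) S = hat g S - hat h S := by
  unfold hat
  rw [← sub_div, ← Finset.sum_sub_distrib]
  congr 1
  exact Finset.sum_congr rfl fun σ _ => by ring

theorem hat_smul (c : ℝ) (g : (V → Bool) → ℝ) (S : Finset V) :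
    hat (fun σ => c * g σ) S = c * hat g S := by
  unfold hat
  rw [← mul_div_assoc, Finset.mul_sum]
  congr 1
  exact Finset.sum_congr rfl fun σ _ => by ring

theorem hat_sum {ι : Type*} (s : Finset ι) (g : ι → (V → Bool) → ℝ) (S : Finset V) :
    hat (fun σ => ∑ i ∈ s, g i σ) S = ∑ i ∈ s, hat (g i) S := by
  unfold hat
  rw [← Finset.sum_div, Finset.sum_comm]
  congr 1
  exact Finset.sum_congr rfl fun σ _ => by rw [Finset.sum_mul]

theorem hat_const (c : ℝ) (S : Finset V) :
    hat (fun _ : V → Bool => c) S = if S = ∅ then c else 0 := by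
  have h1 : (fun _ : V → Bool => c) = fun σ => c * chi ∅ σ := by
    funext σ
    rw [chi_empty, mul_one]
  rw [h1, hat_smul]
  have h2 : hat (chi (∅ : Finset V)) S = if S = ∅ then 1 else 0 := hat_chi S ∅
  rw [h2]
  split_ifs <;> simp

theorem hat_chi_mul (T : Finset V) (g : (V → Bool) → ℝ) (S : Finset V) :
    hat (fun σ => chi T σ * g σ) S = hat g (S ∆ T) := by
  unfold hat
  congr 1
  refine Finset.sum_congr rfl fun σ _ => ?_
  rw [chi_symmDiff]
  ring

theorem hat_mul (g h : (V → Bool) → ℝ) (S : Finset V) :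
    hat (fun σ => g σ * h σ) S = ∑ T, hat g T * hat h (S ∆ T) := by
  have h1 : (fun σ => g σ * h σ) = fun σ => ∑ T, hat g T * (chi T σ * h σ) := by
    funext σ
    rw [inversion g σ, Finset.sum_mul]
    exact Finset.sum_congr rfl fun T _ => by ring
  rw [h1, hat_sum]
  refine Finset.sum_congr rfl fun T _ => ?_
  rw [hat_smul, hat_chi_mul]

/-- A sum over the cube, one coordinate averaged. -/
theorem hat_M (v : V) (g : (V → Bool) → ℝ) (S : Finset V) :
    hat (M v g) S = if v ∈ S then 0 else hat g S := by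
  unfold hat
  have h1 : ∑ σ, M v g σ * chi S σ = ∑ σ, g σ * M v (chi S) σ := by
    rw [← sum_M v (fun σ => M v g σ * chi S σ), ← sum_M v (fun σ => g σ * M v (chi S) σ)]
    refine Finset.sum_congr rfl fun σ _ => ?_
    rw [M_mul, M_mul]
    have e1 : M v (M v g) = M v g := by
      funext τ
      unfold M
      simp only [Function.update_idem]
      ring
    have e2 : M v (M v (chi S)) = M v (chi S) := by
      funext τ
      unfold M
      simp only [Function.update_idem]
      ring
    have e3 : D v (M v g) σ = 0 := by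
      unfold D
      rw [M_update, M_update]
      ring
    have e4 : D v (M v (chi S)) σ = 0 := by
      unfold D
      rw [M_update, M_update]
      ring
    rw [e1, e2, e3, e4]
    ring
  rw [h1]
  split_ifs with hv
  · have h2 : ∀ σ, M v (chi S) σ = 0 := by
      intro σ
      unfold M chi
      rw [← Finset.mul_prod_erase S _ hv, ← Finset.mul_prod_erase S _ hv, sp_update_true,
        sp_update_false]
      have h3 : ∀ b, ∏ x ∈ S.erase v, sp x (Function.update σ v b) = ∏ x ∈ S.erase v, sp x σ :=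
        fun b => Finset.prod_congr rfl fun x hx => sp_update_ne (Finset.ne_of_mem_erase hx) σ b
      rw [h3, h3]
      ring
    simp only [h2, mul_zero, Finset.sum_const_zero, zero_div]
  · have h2 : ∀ σ, M v (chi S) σ = chi S σ := by
      intro σ
      unfold M chi
      have h3 : ∀ b, ∏ x ∈ S, sp x (Function.update σ v b) = ∏ x ∈ S, sp x σ :=
        fun b => Finset.prod_congr rfl fun x hx =>
          sp_update_ne (fun h => hv (by rw [← h]; exact hx)) σ b
      rw [h3, h3]
      ring
    simp only [h2]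

theorem hat_sp_D (v : V) (g : (V → Bool) → ℝ) (S : Finset V) :
    hat (fun σ => sp v σ * D v g σ) S = if v ∈ S then hat g S else 0 := by
  have h1 : (fun σ => sp v σ * D v g σ) = fun σ => g σ - M v g σ := by
    funext σ
    have := eq_M_add v g σ
    linarith
  rw [h1, hat_sub, hat_M]
  split_ifs <;> ring

theorem hat_D (v : V) (g : (V → Bool) → ℝ) (S : Finset V) :
    hat (D v g) S = if v ∈ S then 0 else hat g (insert v S) := by
  have h1 : D v g = fun σ => chi {v} σ * (sp v σ * D v g σ) := by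
    funext σ
    rw [chi_single, ← mul_assoc, sp_sq, one_mul]
  rw [h1, hat_chi_mul, hat_sp_D]
  by_cases hv : v ∈ S
  · rw [if_pos hv, if_neg]
    simp [Finset.mem_symmDiff, hv]
  · rw [if_neg hv, if_pos]
    · congr 1
      ext u
      by_cases hu : u = v
      · subst hu; simp [Finset.mem_symmDiff, hv]
      · simp [Finset.mem_symmDiff, hu]
    · simp [Finset.mem_symmDiff, hv]

theorem hat_of_D {v : V} {g : (V → Bool) → ℝ} (h : ∀ σ, D v g σ = 0) {S : Finset V}
    (hv : v ∈ S) : hat g S = 0 := by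
  have h1 := hat_sp_D v g S
  rw [if_pos hv] at h1
  rw [← h1]
  have h2 : (fun σ => sp v σ * D v g σ) = fun _ => (0 : ℝ) := by
    funext σ
    rw [h, mul_zero]
  rw [h2, hat_const]
  split_ifs <;> rfl

theorem sum_neg' (g : (V → Bool) → ℝ) : ∑ σ, g (neg σ) = ∑ σ, g σ := by
  refine Fintype.sum_bijective neg ?_ _ _ (fun σ => rfl)
  have h : Function.Involutive (neg : (V → Bool) → (V → Bool)) := by
    intro σ
    funext v
    simp [neg]
  exact h.bijective

theorem hat_odd {g : (V → Bool) → ℝ} (h : ∀ σ, g (neg σ) = -g σ) {S : Finset V}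
    (hS : Even S.card) : hat g S = 0 := by
  unfold hat
  have h1 : ∑ σ, g σ * chi S σ = -∑ σ, g σ * chi S σ := by
    conv_lhs => rw [← sum_neg']
    rw [← Finset.sum_neg_distrib]
    refine Finset.sum_congr rfl fun σ _ => ?_
    rw [h, chi_neg, hS.neg_one_pow]
    ring
  have h2 : ∑ σ, g σ * chi S σ = 0 := by linarith
  rw [h2, zero_div]

theorem hat_even {g : (V → Bool) → ℝ} (h : ∀ σ, g (neg σ) = g σ) {S : Finset V}
    (hS : Odd S.card) : hat g S = 0 := by
  unfold hat
  have h1 : ∑ σ, g σ * chi S σ = -∑ σ, g σ * chi S σ := by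
    conv_lhs => rw [← sum_neg']
    rw [← Finset.sum_neg_distrib]
    refine Finset.sum_congr rfl fun σ _ => ?_
    rw [h, chi_neg, hS.neg_one_pow]
    ring
  have h2 : ∑ σ, g σ * chi S σ = 0 := by linarith
  rw [h2, zero_div]

/-! ### The weighted norm -/

omit [Fintype V] [DecidableEq V] in
theorem wt_nonneg {w : V → ℝ} (hw : ∀ u, 0 ≤ w u) (S : Finset V) : 0 ≤ ∏ u ∈ S, w u :=
  Finset.prod_nonneg fun u _ => hw u

theorem nrm_nonneg {w : V → ℝ} (hw : ∀ u, 0 ≤ w u) (g : (V → Bool) → ℝ) : 0 ≤ nrm w g :=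
  Finset.sum_nonneg fun S _ => mul_nonneg (abs_nonneg _) (wt_nonneg hw S)

theorem nrm_const {w : V → ℝ} (c : ℝ) : nrm w (fun _ => c) = |c| := by
  unfold nrm
  rw [Finset.sum_eq_single ∅]
  · rw [hat_const, if_pos rfl, Finset.prod_empty, mul_one]
  · intro S _ hS
    rw [hat_const, if_neg hS, abs_zero, zero_mul]
  · intro h
    exact absurd (Finset.mem_univ _) h

theorem nrm_sp {w : V → ℝ} (v : V) : nrm w (sp v) = w v := by
  have h0 : (sp v : (V → Bool) → ℝ) = chi {v} := by
    funext σ
    rw [chi_single]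
  rw [h0]
  unfold nrm
  rw [Finset.sum_eq_single {v}]
  · rw [hat_chi, if_pos rfl, Finset.prod_singleton, abs_one, one_mul]
  · intro S _ hS
    rw [hat_chi, if_neg hS, abs_zero, zero_mul]
  · intro h
    exact absurd (Finset.mem_univ _) h

theorem nrm_add {w : V → ℝ} (hw : ∀ u, 0 ≤ w u) (g h : (V → Bool) → ℝ) :
    nrm w (fun σ => g σ + h σ) ≤ nrm w g + nrm w h := by
  unfold nrm
  rw [← Finset.sum_add_distrib]
  refine Finset.sum_le_sum fun S _ => ?_
  rw [hat_add, ← add_mul]
  exact mul_le_mul_of_nonneg_right (abs_add_le _ _) (wt_nonneg hw S)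

theorem nrm_smul {w : V → ℝ} (c : ℝ) (g : (V → Bool) → ℝ) :
    nrm w (fun σ => c * g σ) = |c| * nrm w g := by
  unfold nrm
  rw [Finset.mul_sum]
  refine Finset.sum_congr rfl fun S _ => ?_
  rw [hat_smul, abs_mul]
  ring

theorem nrm_sub {w : V → ℝ} (hw : ∀ u, 0 ≤ w u) (g h : (V → Bool) → ℝ) :
    nrm w (fun σ => g σ - h σ) ≤ nrm w g + nrm w h := by
  have h1 := nrm_add hw g (fun σ => (-1) * h σ)
  rw [nrm_smul, abs_neg, abs_one, one_mul] at h1
  have h2 : (fun σ => g σ - h σ) = fun σ => g σ + (-1) * h σ := by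
    funext σ
    ring
  rw [h2]
  exact h1

theorem wt_symmDiff {w : V → ℝ} (hw : ∀ u, 1 ≤ w u) (S T : Finset V) :
    ∏ u ∈ S ∆ T, w u ≤ (∏ u ∈ S, w u) * ∏ u ∈ T, w u := by
  have h0 : ∀ S : Finset V, ∏ u ∈ S, w u = ∏ u, if u ∈ S then w u else 1 := fun S => by
    rw [Finset.prod_ite_mem, Finset.univ_inter]
  rw [h0, h0, h0, ← Finset.prod_mul_distrib]
  refine Finset.prod_le_prod (fun u _ => ?_) fun u _ => ?_
  · split_ifs
    · exact zero_le_one.trans (hw u)
    · exact zero_le_one
  · have h1 := hw u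
    by_cases hS : u ∈ S <;> by_cases hT : u ∈ T <;> simp [Finset.mem_symmDiff, hS, hT]
    nlinarith

theorem nrm_mul {w : V → ℝ} (hw : ∀ u, 1 ≤ w u) (g h : (V → Bool) → ℝ) :
    nrm w (fun σ => g σ * h σ) ≤ nrm w g * nrm w h := by
  have h0 : ∀ u, 0 ≤ w u := fun u => zero_le_one.trans (hw u)
  unfold nrm
  have h1 : ∀ S : Finset V, |hat (fun σ => g σ * h σ) S| * ∏ u ∈ S, w u ≤
      ∑ T, (|hat g T| * ∏ u ∈ T, w u) * (|hat h (S ∆ T)| * ∏ u ∈ S ∆ T, w u) := by
    intro S
    rw [hat_mul]
    refine (mul_le_mul_of_nonneg_right (Finset.abs_sum_le_sum_abs _ _)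
      (wt_nonneg h0 S)).trans ?_
    rw [Finset.sum_mul]
    refine Finset.sum_le_sum fun T _ => ?_
    rw [abs_mul]
    have h2 : ∏ u ∈ S, w u ≤ (∏ u ∈ T, w u) * ∏ u ∈ S ∆ T, w u := by
      have h3 := wt_symmDiff hw T (S ∆ T)
      have h4 : T ∆ (S ∆ T) = S := by
        rw [symmDiff_comm S T, symmDiff_symmDiff_cancel_left]
      rw [h4] at h3
      exact h3
    have h5 := mul_le_mul_of_nonneg_left h2
      (mul_nonneg (abs_nonneg (hat g T)) (abs_nonneg (hat h (S ∆ T))))
    calc _ ≤ _ := h5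
      _ = _ := by ring
  refine (Finset.sum_le_sum fun S _ => h1 S).trans (le_of_eq ?_)
  rw [Finset.sum_comm, Finset.sum_mul]
  refine Finset.sum_congr rfl fun T _ => ?_
  rw [← Finset.mul_sum]
  congr 1
  exact Fintype.sum_bijective (fun S => S ∆ T)
    (Function.Involutive.bijective fun S => symmDiff_symmDiff_cancel_right T S) _ _
    (fun S => rfl)

theorem nrm_inv {w : V → ℝ} (hw : ∀ u, 1 ≤ w u) {e h : (V → Bool) → ℝ}
    (heh : ∀ σ, h σ * (1 + e σ) = 1) (he : nrm w e < 1) : nrm w h ≤ 1 / (1 - nrm w e) := by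
  have h0 : ∀ u, 0 ≤ w u := fun u => zero_le_one.trans (hw u)
  have h1 : h = fun σ => 1 - e σ * h σ := by
    funext σ
    have := heh σ
    linarith
  have h2 : nrm w h ≤ 1 + nrm w e * nrm w h := by
    calc nrm w h = nrm w (fun σ => 1 - e σ * h σ) := by rw [← h1]
      _ ≤ nrm w (fun _ => (1 : ℝ)) + nrm w (fun σ => e σ * h σ) :=
        nrm_sub h0 (fun _ => (1 : ℝ)) (fun σ => e σ * h σ)
      _ ≤ 1 + nrm w e * nrm w h := by
        rw [nrm_const, abs_one]
        have := nrm_mul hw e h
        linarith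
  rw [le_div_iff₀ (by linarith)]
  nlinarith

end Pool.Agent.Lib.MP_f82811_pr.WC
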